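import Mathlib
import Pool.Agent.X3.NfaSidon

/-!
# Representation functions and automatic complexity

`rep A n` is the number of ordered pairs of elements of `A` with sum `n`. The automatic complexity
of `A` below `N` (up to `k` errors) is the least number of states of a nondeterministic finite
automaton that accepts exactly one word of length `N`, and this word coincides with
`1_A(0), 1_A(1), ..., 1_A(N - 1)` up to at most `k` places. It is at most `N + 1`.

1. If `rep A n ≤ R` for all `n < 2 N`, and if some automaton with `q` states accepts a word that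
   differs from `1_A(0) ... 1_A(N - 1)` in at most `k` places, and at most `2 ^ h` words of length
   `N`, then `|A ∩ [0, N)| ^ 2 ≤ 8 (R + 1) ^ 2 q (h + k + ⌈log_2 q⌉ + 2) ^ 2`.
2. This is sharp up to the logarithm, for all `q ≤ N`.
3. If `|A ∩ [1, N]| ≫ √N / g(N)` and the automatic complexity `q(N)` of `A` up to `k(N)` errors
   satisfies `g(N) ^ 2 (log N + k(N)) ^ 2 q(N) ≥ c N` for all large `N` for no `c > 0`, then the
   representation function of `A` is unbounded.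
4. In particular it is unbounded if `g(N) ≤ N ^ β` and `q(N) ≤ N ^ (1 - 2 β - 3 δ)` for
   arbitrarily large `N`, where `k(N) = ⌊N ^ δ⌋`, `δ > 0`.
5. The conjecture of Erdős and Turán is true for the additive bases of order `2` with automatic
   complexity `q(N)` up to `k(N)` errors, `(log N + k(N)) ^ 2 q(N) ≥ c N` for all large `N` for
   no `c > 0`.
-/

set_option autoImplicit false

open Filter

namespace Pool.Agent.Results.MP_491344_nt.AutomaticComplexity

/-- The number of ordered pairs `(a, b) ∈ A × A` with `a + b = n`. -/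
noncomputable def rep (A : Set ℕ) (n : ℕ) : ℕ :=
  {p : ℕ × ℕ | p.1 ∈ A ∧ p.2 ∈ A ∧ p.1 + p.2 = n}.ncard

open Classical in
/-- The first `N` values of the characteristic function of `A`. -/
noncomputable def word (A : Set ℕ) (N : ℕ) : List Bool :=
  (List.range N).map fun i => decide (i ∈ A)

/-- The words of length `N` that the automaton accepts. -/
def lang {q : ℕ} (M : NFA Bool (Fin q)) (N : ℕ) : Set (List Bool) :=
  {w | w ∈ M.accepts ∧ w.length = N}

/-- The number of the `i < N` that belong to exactly one of the sets `A` and `B`. -/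
noncomputable def errors (A B : Set ℕ) (N : ℕ) : ℕ := {i | i < N ∧ ¬ (i ∈ A ↔ i ∈ B)}.ncard

/-- The automatic complexity of `A` below `N`, up to `k` errors: the least number of states of a
nondeterministic automaton that accepts exactly one word of length `N`, which is the word of a set
`B` with at most `k` errors. -/
noncomputable def complexity (A : Set ℕ) (k N : ℕ) : ℕ :=
  sInf {q : ℕ | ∃ (M : NFA Bool (Fin q)) (B : Set ℕ), lang M N = {word B N} ∧ errors A B N ≤ k}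

/-- `|A ∩ {1, ..., N}| ≫ √N / g(N)`. -/
def Dense (g : ℕ → ℝ) (A : Set ℕ) : Prop :=
  ∃ C : ℝ, 0 < C ∧ ∀ᶠ N : ℕ in atTop, Real.sqrt N / g N ≤ C * (A ∩ Set.Icc 1 N).ncard

/-- The representation function is unbounded. -/
def Unbounded (A : Set ℕ) : Prop := ∀ B : ℕ, ∃ n, B < rep A n

theorem word_eq (A : Set ℕ) (N : ℕ) :
    word A N = Pool.Agent.X3.NfaWords.seg (fun i => @decide (i ∈ A) (Classical.propDecidable _))
      0 N := by
  unfold word Pool.Agent.X3.NfaWords.seg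
  rw [List.range_eq_range', Nat.sub_zero]

theorem lang_finite {q : ℕ} (M : NFA Bool (Fin q)) (N : ℕ) : (lang M N).Finite :=
  (List.finite_length_eq Bool N).subset fun _ h => h.2

theorem below_card (A : Set ℕ) (N : ℕ) :
    (Pool.Agent.X3.NfaSidon.below A N).card = (A ∩ Set.Iio N).ncard := by
  classical
  rw [← Set.ncard_coe_finset]
  congr 1
  ext a
  rw [Finset.mem_coe, Pool.Agent.X3.NfaSidon.mem_below, Set.mem_inter_iff, Set.mem_Iio, and_comm]

theorem main (A B : Set ℕ) (R N h k q : ℕ) (M : NFA Bool (Fin q))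
    (hR : ∀ n < 2 * N, rep A n ≤ R) (hacc : word B N ∈ M.accepts) (hE : errors A B N ≤ k)
    (hW : (lang M N).ncard ≤ 2 ^ h) :
    (A ∩ Set.Iio N).ncard ^ 2 ≤ 8 * (R + 1) ^ 2 * q * (h + k + Nat.clog 2 q + 2) ^ 2 := by
  classical
  rw [word_eq] at hacc
  have hfin : {i | i < N ∧ ¬ (i ∈ A ↔ i ∈ B)}.Finite :=
    (Set.finite_Iio N).subset fun _ hi => hi.1
  have h1 := Pool.Agent.X3.NfaSidon.bound M A R N h k hR _
    (fun i => @decide (i ∈ A) (Classical.propDecidable _)) (by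
      intro i j hij
      simpa using hij) hacc hfin.toFinset (by
      rw [← Set.ncard_eq_toFinset_card _ hfin]
      exact hE) (by
      intro i hi hiE
      rw [Set.Finite.mem_toFinset] at hiE
      have h2 : (i ∈ A ↔ i ∈ B) := by
        by_contra hcon
        exact hiE ⟨hi, hcon⟩
      simp [h2]) (by
      intro W hW1
      refine le_trans ?_ hW
      rw [← Set.ncard_coe_finset]
      exact Set.ncard_le_ncard (fun w hw => ⟨(hW1 w hw).2, (hW1 w hw).1⟩) (lang_finite M N))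
  rw [below_card, Fintype.card_fin] at h1
  exact h1

/-! ## The trivial automaton -/

open Classical in
/-- The automaton that reads the first `q` values and then zeros. -/
noncomputable def auto (A : Set ℕ) (q : ℕ) : NFA Bool (Fin (q + 1)) where
  step s a := {t | (s.val < q ∧ a = decide (s.val ∈ A) ∧ t.val = s.val + 1) ∨
    (s.val = q ∧ a = false ∧ t.val = q)}
  start := {0}
  accept := Set.univ

theorem auto_lang {A : Set ℕ} {q N : ℕ} (hA : ∀ a ∈ A, a < q) :
    lang (auto A q) N = {word A N} := by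
  classical
  ext w
  rw [Set.mem_singleton_iff]
  have hrun : ∀ (f : ℕ → Fin (q + 1)) (x : ℕ → Bool), (f 0).val = 0 →
      (∀ i, i < N → f (i + 1) ∈ (auto A q).step (f i) (x i)) →
      ∀ i, i ≤ N → (f i).val = min i q ∧ ∀ j < i, x j = decide (j ∈ A) := by
    intro f x h0 hf i
    induction i with
    | zero =>
      intro _
      exact ⟨by simpa using h0, fun j hj => absurd hj (Nat.not_lt_zero _)⟩
    | succ i ih =>
      intro hi
      obtain ⟨h1, h2⟩ := ih (by omega)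
      have h3 := hf i (by omega)
      simp only [auto, Set.mem_ofPred_eq] at h3
      rcases h3 with ⟨h4, h5, h6⟩ | ⟨h4, h5, h6⟩
      · have h7 : i < q := by omega
        have h8 : (f i).val = i := by omega
        refine ⟨by omega, fun j hj => ?_⟩
        rcases Nat.lt_succ_iff_lt_or_eq.1 hj with h | h
        · exact h2 j h
        · rw [h, h5, h8]
      · have h7 : q ≤ i := by omega
        refine ⟨by omega, fun j hj => ?_⟩
        rcases Nat.lt_succ_iff_lt_or_eq.1 hj with h | h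
        · exact h2 j h
        · rw [h, h5]
          symm
          rw [decide_eq_false_iff_not]
          intro hmem
          have := hA i hmem
          omega
  constructor
  · rintro ⟨hw, hlen⟩
    rw [NFA.accepts_iff_exists_path] at hw
    obtain ⟨s, hs, t, -, ⟨p⟩⟩ := hw
    have hws : w = Pool.Agent.X3.NfaWords.seg (fun i => w.getD i false) 0 N := by
      apply List.ext_getElem?
      intro i
      rcases Nat.lt_or_ge i N with hi | hi
      · rw [Pool.Agent.X3.NfaWords.seg_get _ _ _ _ (by omega), Nat.zero_add]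
        rw [List.getD_eq_getElem?_getD, List.getElem?_eq_getElem (by omega)]
        rfl
      · rw [List.getElem?_eq_none (by omega), List.getElem?_eq_none]
        rw [Pool.Agent.X3.NfaWords.seg_length]
        omega
    have hp := Pool.Agent.X3.NfaWords.P_of_path p
    rw [hws] at hp
    obtain ⟨f, hf0, -, hf⟩ := Pool.Agent.X3.NfaWords.run_of_P N 0 s t (by simpa using hp)
    have h0 : (f 0).val = 0 := by
      rw [hf0]
      have : s ∈ (auto A q).start := hs
      simp only [auto, Set.mem_singleton_iff] at this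
      rw [this]
      rfl
    obtain ⟨-, h2⟩ := hrun f _ h0 (fun i hi => hf i (Nat.zero_le _) (by omega)) N le_rfl
    rw [hws]
    unfold word Pool.Agent.X3.NfaWords.seg
    rw [Nat.sub_zero, ← List.range_eq_range']
    apply List.map_congr_left
    intro i hi
    rw [List.mem_range] at hi
    exact h2 i hi
  · intro hw
    subst hw
    refine ⟨?_, by simp [word]⟩
    rw [NFA.accepts_iff_exists_path]
    obtain ⟨f, hf⟩ : ∃ f : ℕ → Fin (q + 1), f = fun i => ⟨min i q, by omega⟩ := ⟨_, rfl⟩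
    have hrun2 : Pool.Agent.X3.NfaWords.Run (auto A q)
        (fun i => @decide (i ∈ A) (Classical.propDecidable _)) f N := by
      intro i _
      simp only [auto, Set.mem_ofPred_eq, hf]
      rcases Nat.lt_or_ge i q with h | h
      · left
        have e1 : min i q = i := by omega
        have e2 : min (i + 1) q = i + 1 := by omega
        refine ⟨by omega, ?_, by omega⟩
        simp only [e1]
      · right
        have e1 : min i q = q := by omega
        have e2 : min (i + 1) q = q := by omega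
        refine ⟨by omega, ?_, by omega⟩
        rw [decide_eq_false_iff_not]
        intro hmem
        have := hA i hmem
        omega
    have hP := Pool.Agent.X3.NfaWords.P_of_run hrun2 (Nat.zero_le N) le_rfl
    rw [← word_eq] at hP
    refine ⟨f 0, ?_, f N, Set.mem_univ _, Pool.Agent.X3.NfaWords.path_of_P hP⟩
    simp only [auto, Set.mem_singleton_iff, hf]
    rfl

theorem complexity_le {A : Set ℕ} {q : ℕ} (hA : ∀ a ∈ A, a < q) (k N : ℕ) :
    complexity A k N ≤ q + 1 := by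
  apply Nat.sInf_le
  refine ⟨auto A q, A, auto_lang hA, ?_⟩
  have : {i | i < N ∧ ¬ (i ∈ A ↔ i ∈ A)} = ∅ := by
    ext i
    simp
  unfold errors
  rw [this, Set.ncard_empty]
  exact Nat.zero_le _

theorem exists_auto (A : Set ℕ) (k N : ℕ) : N + 1 ∈ {q : ℕ | ∃ (M : NFA Bool (Fin q))
    (B : Set ℕ), lang M N = {word B N} ∧ errors A B N ≤ k} := by
  refine ⟨auto (A ∩ Set.Iio N) N, A ∩ Set.Iio N, auto_lang fun a ha => ha.2, ?_⟩
  have : {i | i < N ∧ ¬ (i ∈ A ↔ i ∈ A ∩ Set.Iio N)} = ∅ := by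
    ext i
    simp only [Set.mem_ofPred_eq, Set.mem_inter_iff, Set.mem_Iio, Set.mem_empty_iff_false,
      iff_false, not_and, not_not]
    intro hi
    exact ⟨fun h => ⟨h, hi⟩, fun h => h.1⟩
  unfold errors
  rw [this, Set.ncard_empty]
  exact Nat.zero_le _

theorem complexity_le' (A : Set ℕ) (k N : ℕ) : complexity A k N ≤ N + 1 :=
  Nat.sInf_le (exists_auto A k N)

theorem complexity_spec (A : Set ℕ) (k N : ℕ) :
    ∃ (M : NFA Bool (Fin (complexity A k N))) (B : Set ℕ), lang M N = {word B N} ∧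
      errors A B N ≤ k :=
  Nat.sInf_mem (s := {q : ℕ | ∃ (M : NFA Bool (Fin q)) (B : Set ℕ), lang M N = {word B N} ∧
    errors A B N ≤ k}) ⟨_, exists_auto A k N⟩

theorem complexity_pos (A : Set ℕ) (k N : ℕ) : 1 ≤ complexity A k N := by
  obtain ⟨M, B, hM, -⟩ := complexity_spec A k N
  have h1 : word B N ∈ M.accepts := by
    have : word B N ∈ lang M N := by rw [hM]; exact rfl
    exact this.1
  rw [NFA.accepts_iff_exists_path] at h1
  obtain ⟨s, -⟩ := h1
  have := s.2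
  omega

/-- the bound in terms of the complexity -/
theorem main' (A : Set ℕ) (R N k : ℕ) (hR : ∀ n < 2 * N, rep A n ≤ R) :
    (A ∩ Set.Iio N).ncard ^ 2 ≤ 8 * (R + 1) ^ 2 * complexity A k N *
      (k + Nat.clog 2 (complexity A k N) + 2) ^ 2 := by
  obtain ⟨M, B, hM, hE⟩ := complexity_spec A k N
  have h1 : word B N ∈ M.accepts := by
    have : word B N ∈ lang M N := by rw [hM]; exact rfl
    exact this.1
  have h2 := main A B R N 0 k _ M hR h1 hE (by rw [hM, Set.ncard_singleton]; norm_num)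
  rwa [Nat.zero_add] at h2

/-! ## Sidon sets -/

/-- the Sidon set of Erdős and Turán -/
def sidon (p : ℕ) : Set ℕ := {a | ∃ k < p, a = 2 * p * k + k ^ 2 % p}

theorem sidon_lt {p : ℕ} {a : ℕ} (ha : a ∈ sidon p) : a < 2 * p ^ 2 := by
  obtain ⟨k, hk, rfl⟩ := ha
  have h1 : k ^ 2 % p < p := Nat.mod_lt _ (by omega)
  have h2 : 2 * p * (k + 1) ≤ 2 * p * p := Nat.mul_le_mul_left _ hk
  nlinarith

theorem sidon_card {p : ℕ} {N : ℕ} (hN : 2 * p ^ 2 ≤ N) : (sidon p ∩ Set.Iio N).ncard = p := by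
  classical
  have h : sidon p ∩ Set.Iio N = ((Finset.range p).image fun k => 2 * p * k + k ^ 2 % p) := by
    ext a
    rw [Set.mem_inter_iff, Finset.mem_coe, Finset.mem_image]
    constructor
    · rintro ⟨⟨k, hk, rfl⟩, -⟩
      exact ⟨k, Finset.mem_range.2 hk, rfl⟩
    · rintro ⟨k, hk, rfl⟩
      have h1 : 2 * p * k + k ^ 2 % p ∈ sidon p := ⟨k, Finset.mem_range.1 hk, rfl⟩
      exact ⟨h1, lt_of_lt_of_le (sidon_lt h1) hN⟩
  rw [h, Set.ncard_coe_finset, Finset.card_image_of_injOn, Finset.card_range]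
  intro i hi j hj hij
  have hp : 0 < p := lt_of_le_of_lt (Nat.zero_le _) (Finset.mem_range.1 (Finset.mem_coe.1 hi))
  simp only at hij
  have h1 : i ^ 2 % p < p := Nat.mod_lt _ hp
  have h2 : j ^ 2 % p < p := Nat.mod_lt _ hp
  have h3 : (2 * p * i + i ^ 2 % p) / (2 * p) = i := by
    rw [Nat.mul_add_div (by omega), Nat.div_eq_of_lt (by omega)]
    rfl
  have h4 : (2 * p * j + j ^ 2 % p) / (2 * p) = j := by
    rw [Nat.mul_add_div (by omega), Nat.div_eq_of_lt (by omega)]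
    rfl
  rw [← h3, hij, h4]

theorem sidon_rep {p : ℕ} (hp : p.Prime) (hp2 : p ≠ 2) (n : ℕ) : rep (sidon p) n ≤ 2 := by
  classical
  by_contra hcon
  push Not at hcon
  have hpos := hp.pos
  -- one pair
  have hne : {p' : ℕ × ℕ | p'.1 ∈ sidon p ∧ p'.2 ∈ sidon p ∧ p'.1 + p'.2 = n}.Nonempty := by
    apply Set.nonempty_of_ncard_ne_zero
    unfold rep at hcon
    omega
  obtain ⟨⟨a, b⟩, ha, hb, hab⟩ := hne
  simp only at ha hb hab
  have hsub : {p' : ℕ × ℕ | p'.1 ∈ sidon p ∧ p'.2 ∈ sidon p ∧ p'.1 + p'.2 = n} ⊆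
      {(a, b), (b, a)} := by
    rintro ⟨c, d⟩ ⟨hc, hd, hcd⟩
    simp only at hc hd hcd
    obtain ⟨k1, hk1, e1⟩ := ha
    obtain ⟨k2, hk2, e2⟩ := hb
    obtain ⟨k3, hk3, e3⟩ := hc
    obtain ⟨k4, hk4, e4⟩ := hd
    have r1 : k1 ^ 2 % p < p := Nat.mod_lt _ hpos
    have r2 : k2 ^ 2 % p < p := Nat.mod_lt _ hpos
    have r3 : k3 ^ 2 % p < p := Nat.mod_lt _ hpos
    have r4 : k4 ^ 2 % p < p := Nat.mod_lt _ hpos
    have hsum : 2 * p * (k1 + k2) + (k1 ^ 2 % p + k2 ^ 2 % p) =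
        2 * p * (k3 + k4) + (k3 ^ 2 % p + k4 ^ 2 % p) := by
      rw [Nat.mul_add, Nat.mul_add]
      omega
    have hq : k1 + k2 = k3 + k4 := by
      have h5 : (2 * p * (k1 + k2) + (k1 ^ 2 % p + k2 ^ 2 % p)) / (2 * p) = k1 + k2 := by
        rw [Nat.mul_add_div (by omega), Nat.div_eq_of_lt (by omega)]
        rfl
      have h6 : (2 * p * (k3 + k4) + (k3 ^ 2 % p + k4 ^ 2 % p)) / (2 * p) = k3 + k4 := by
        rw [Nat.mul_add_div (by omega), Nat.div_eq_of_lt (by omega)]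
        rfl
      rw [← h5, hsum, h6]
    have hr : k1 ^ 2 % p + k2 ^ 2 % p = k3 ^ 2 % p + k4 ^ 2 % p := by
      rw [hq] at hsum
      omega
    have hmod : ((p : ℤ)) ∣ ((k1 : ℤ) ^ 2 + (k2 : ℤ) ^ 2) - ((k3 : ℤ) ^ 2 + (k4 : ℤ) ^ 2) := by
      have h7 : (k1 ^ 2 + k2 ^ 2) % p = (k3 ^ 2 + k4 ^ 2) % p := by
        rw [Nat.add_mod, hr, ← Nat.add_mod]
      have h8 := (Nat.modEq_iff_dvd.1 (h7 : k1 ^ 2 + k2 ^ 2 ≡ k3 ^ 2 + k4 ^ 2 [MOD p]).symm)
      push_cast at h8
      exact h8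
    have hqz : (k1 : ℤ) + k2 = k3 + k4 := by exact_mod_cast hq
    have hprod : ((p : ℤ)) ∣ 2 * (((k1 : ℤ) - k3) * ((k1 : ℤ) - k4)) := by
      have h9 : 2 * (((k1 : ℤ) - k3) * ((k1 : ℤ) - k4)) =
          ((k1 : ℤ) ^ 2 + (k2 : ℤ) ^ 2) - ((k3 : ℤ) ^ 2 + (k4 : ℤ) ^ 2) := by
        have : (k2 : ℤ) = k3 + k4 - k1 := by linarith
        rw [this]
        ring
      rw [h9]
      exact hmod
    have hpz : Prime (p : ℤ) := Nat.prime_iff_prime_int.1 hp
    have hcase : k1 = k3 ∨ k1 = k4 := by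
      rcases hpz.dvd_or_dvd hprod with h | h
      · exfalso
        have : p ∣ 2 := by exact_mod_cast h
        exact hp2 ((Nat.prime_dvd_prime_iff_eq hp Nat.prime_two).1 this)
      · rcases hpz.dvd_or_dvd h with h | h
        · left
          have := Int.eq_zero_of_abs_lt_dvd h (by rw [abs_lt]; constructor <;> omega)
          omega
        · right
          have := Int.eq_zero_of_abs_lt_dvd h (by rw [abs_lt]; constructor <;> omega)
          omega
    rw [Set.mem_insert_iff, Set.mem_singleton_iff, Prod.mk.injEq, Prod.mk.injEq]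
    rcases hcase with h | h
    · left
      have h10 : k4 = k2 := by omega
      rw [e1, e2, e3, e4, h, h10]
      exact ⟨rfl, rfl⟩
    · right
      have h10 : k3 = k2 := by omega
      rw [e1, e2, e3, e4, h, h10]
      exact ⟨rfl, rfl⟩
  have h1 := Set.ncard_le_ncard hsub (Set.toFinite _)
  have h2 : ({(a, b), (b, a)} : Set (ℕ × ℕ)).ncard ≤ 2 := by
    refine (Set.ncard_insert_le _ _).trans ?_
    rw [Set.ncard_singleton]
  unfold rep at hcon
  omega

theorem sharp (q N : ℕ) (hq : 1 ≤ q) (hqN : q ≤ N) : ∃ A : Set ℕ, (∀ n, rep A n ≤ 2) ∧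
    complexity A 0 N ≤ q + 1 ∧ q ≤ 32 * (A ∩ Set.Iio N).ncard ^ 2 := by
  classical
  rcases Nat.lt_or_ge q 32 with h | h
  · refine ⟨{0}, ?_, complexity_le (by intro a ha; rw [Set.mem_singleton_iff] at ha; omega) 0 N, ?_⟩
    · intro n
      have : {p : ℕ × ℕ | p.1 ∈ ({0} : Set ℕ) ∧ p.2 ∈ ({0} : Set ℕ) ∧ p.1 + p.2 = n} ⊆ {(0, 0)} := by
        rintro ⟨a, b⟩ ⟨h1, h2, -⟩
        simp only [Set.mem_singleton_iff] at h1 h2
        rw [h1, h2]
        rfl
      have h2 := Set.ncard_le_ncard this (Set.finite_singleton _)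
      rw [Set.ncard_singleton] at h2
      unfold rep
      omega
    · have : ({0} : Set ℕ) ∩ Set.Iio N = {0} := by
        ext a
        simp only [Set.mem_inter_iff, Set.mem_singleton_iff, Set.mem_Iio]
        constructor
        · exact fun h => h.1
        · intro h
          exact ⟨h, by omega⟩
      rw [this, Set.ncard_singleton]
      omega
  · obtain ⟨n, hn⟩ : ∃ n, n = Nat.sqrt (q / 8) := ⟨_, rfl⟩
    have hn2 : 2 ≤ n := by
      rw [hn]
      apply Nat.le_sqrt.2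
      omega
    have hn3 : n * n ≤ q / 8 := by rw [hn]; exact Nat.sqrt_le _
    have hn4 : q / 8 < (n + 1) * (n + 1) := by rw [hn]; exact Nat.lt_succ_sqrt _
    obtain ⟨p, hp, hp1, hp2⟩ := Nat.exists_prime_lt_and_le_two_mul n (by omega)
    have h1 : 2 * p ^ 2 ≤ q := by
      have h2 : p ^ 2 ≤ (2 * n) ^ 2 := Nat.pow_le_pow_left hp2 2
      have h3 : (2 * n) ^ 2 = 4 * (n * n) := by ring
      omega
    refine ⟨sidon p, fun n => sidon_rep hp (by omega) n,
      complexity_le (fun a ha => lt_of_lt_of_le (sidon_lt ha) h1) 0 N, ?_⟩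
    rw [sidon_card (le_trans h1 hqN)]
    have h4 : (n + 1) * (n + 1) ≤ p ^ 2 := by
      rw [sq]
      exact Nat.mul_le_mul hp1 hp1
    omega

/-! ## Thresholds -/

theorem clog_le {q N : ℕ} (hN : 3 ≤ N) (hq : q ≤ N + 1) :
    (Nat.clog 2 q : ℝ) + 2 ≤ 6 * Real.log N := by
  have hN3 : (3 : ℝ) ≤ N := by exact_mod_cast hN
  have hlog1 : 1 ≤ Real.log N := by
    rw [Real.le_log_iff_exp_le (by linarith)]
    have := Real.exp_one_lt_d9
    linarith
  have h1 : Nat.clog 2 q ≤ Nat.clog 2 (N + 1) := Nat.clog_mono_right 2 hq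
  have h2 : (Nat.clog 2 (N + 1) : ℝ) ≤ 3 * Real.log N + 1 := by
    obtain ⟨m, hm⟩ : ∃ m, m = Nat.clog 2 (N + 1) := ⟨_, rfl⟩
    have h3 : 2 ^ (m - 1) < N + 1 := by
      rw [hm]
      exact Nat.pow_pred_clog_lt_self (by norm_num) (by omega)
    have h4 : ((m - 1 : ℕ) : ℝ) * Real.log 2 ≤ Real.log (N ^ 2) := by
      rw [← Real.log_pow]
      apply Real.log_le_log (by positivity)
      have : (2 : ℝ) ^ (m - 1) < N + 1 := by exact_mod_cast h3
      nlinarith
    rw [Real.log_pow] at h4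
    have h5 : 0.6931471803 < Real.log 2 := Real.log_two_gt_d9
    have h6 : (m : ℝ) ≤ ((m - 1 : ℕ) : ℝ) + 1 := by
      have : m ≤ (m - 1) + 1 := by omega
      exact_mod_cast this
    rw [← hm]
    push_cast at h4
    nlinarith [Nat.cast_nonneg (α := ℝ) (m - 1)]
  have h7 : (Nat.clog 2 q : ℝ) ≤ Nat.clog 2 (N + 1) := by exact_mod_cast h1
  linarith

theorem force (g : ℕ → ℝ) (A : Set ℕ) (k : ℕ → ℕ) (hg : ∀ N, 0 < g N) (hA : Dense g A)
    (hlow : ∀ c : ℝ, 0 < c → ∃ᶠ N : ℕ in atTop,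
      g N ^ 2 * (Real.log N + k N) ^ 2 * complexity A (k N) N < c * N) : Unbounded A := by
  intro B
  by_contra hcon
  push Not at hcon
  obtain ⟨C, hC, hA⟩ := hA
  have hB : (0 : ℝ) ≤ B := Nat.cast_nonneg _
  obtain ⟨N, hN1, hN2, hN3⟩ := ((hlow (1 / (648 * C ^ 2 * (B + 1) ^ 2)) (by positivity)).and_eventually
    (hA.and (eventually_ge_atTop 3))).exists
  have hm := main' A B N (k N) (fun n _ => hcon n)
  obtain ⟨q, hq⟩ : ∃ q, q = complexity A (k N) N := ⟨_, rfl⟩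
  obtain ⟨a, ha⟩ : ∃ a, a = (A ∩ Set.Iio N).ncard := ⟨_, rfl⟩
  have hq1 : 1 ≤ q := by rw [hq]; exact complexity_pos _ _ _
  have hqN : q ≤ N + 1 := by rw [hq]; exact complexity_le' _ _ _
  rw [← ha, ← hq] at hm
  rw [← hq] at hN1
  have hN3' : (3 : ℝ) ≤ N := by exact_mod_cast hN3
  have hcl := clog_le hN3 hqN
  have hlog : 0 ≤ Real.log N := Real.log_nonneg (by linarith)
  have ha2 : ((A ∩ Set.Icc 1 N).ncard : ℝ) ≤ a + 1 := by
    have h1 : A ∩ Set.Icc 1 N ⊆ (A ∩ Set.Iio N) ∪ {N} := by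
      rintro x ⟨hx1, hx2⟩
      rcases Nat.lt_or_ge x N with h | h
      · exact Or.inl ⟨hx1, h⟩
      · right
        have := hx2.2
        rw [Set.mem_singleton_iff]
        omega
    have h2 := Set.ncard_le_ncard h1 (((Set.finite_Iio N).subset fun _ h => h.2).union
      (Set.finite_singleton _))
    have h3 := Set.ncard_union_le (A ∩ Set.Iio N) {N}
    rw [Set.ncard_singleton] at h3
    rw [ha]
    exact_mod_cast h2.trans h3
  have hgN := hg N
  have h1 : Real.sqrt N ≤ C * (a + 1) * g N := by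
    rw [div_le_iff₀ hgN] at hN2
    refine hN2.trans ?_
    apply mul_le_mul_of_nonneg_right _ hgN.le
    exact mul_le_mul_of_nonneg_left ha2 hC.le
  have h2 : (N : ℝ) ≤ (C * (a + 1) * g N) ^ 2 := by
    have h3 := pow_le_pow_left₀ (Real.sqrt_nonneg _) h1 2
    rwa [Real.sq_sqrt (by linarith)] at h3
  have hmR : (a : ℝ) ^ 2 ≤ 8 * ((B : ℝ) + 1) ^ 2 * q * (k N + Nat.clog 2 q + 2) ^ 2 := by
    exact_mod_cast hm
  have hqR : (1 : ℝ) ≤ q := by exact_mod_cast hq1
  have hkR : (0 : ℝ) ≤ k N := Nat.cast_nonneg _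
  have hclR : (0 : ℝ) ≤ Nat.clog 2 q := Nat.cast_nonneg _
  obtain ⟨s, hs⟩ : ∃ s : ℝ, s = (k N : ℝ) + Nat.clog 2 q + 2 := ⟨_, rfl⟩
  have hs1 : 1 ≤ s := by rw [hs]; linarith
  rw [← hs] at hmR
  have hs2 : s ≤ 6 * (Real.log N + k N) := by rw [hs]; nlinarith
  have h3 : ((a : ℝ) + 1) ^ 2 ≤ 18 * ((B : ℝ) + 1) ^ 2 * q * s ^ 2 := by
    have h4 : ((a : ℝ) + 1) ^ 2 ≤ 2 * (a : ℝ) ^ 2 + 2 := by nlinarith [sq_nonneg ((a : ℝ) - 1)]
    have h5 : 1 ≤ ((B : ℝ) + 1) ^ 2 * q * s ^ 2 := by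
      have h6 : 1 ≤ ((B : ℝ) + 1) ^ 2 := by nlinarith
      have h7 : 1 ≤ s ^ 2 := by nlinarith
      have h8 : 1 ≤ ((B : ℝ) + 1) ^ 2 * q := by nlinarith
      nlinarith
    nlinarith
  have h4 : s ^ 2 ≤ 36 * (Real.log N + k N) ^ 2 := by nlinarith
  have h5 : (N : ℝ) ≤ 648 * C ^ 2 * (B + 1) ^ 2 * (g N ^ 2 * (Real.log N + k N) ^ 2 * q) := by
    calc (N : ℝ) ≤ (C * (a + 1) * g N) ^ 2 := h2
      _ = C ^ 2 * g N ^ 2 * ((a : ℝ) + 1) ^ 2 := by ring
      _ ≤ C ^ 2 * g N ^ 2 * (18 * ((B : ℝ) + 1) ^ 2 * q * s ^ 2) :=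
          mul_le_mul_of_nonneg_left h3 (by positivity)
      _ = (C ^ 2 * g N ^ 2 * (18 * ((B : ℝ) + 1) ^ 2 * q)) * s ^ 2 := by ring
      _ ≤ (C ^ 2 * g N ^ 2 * (18 * ((B : ℝ) + 1) ^ 2 * q)) * (36 * (Real.log N + k N) ^ 2) :=
          mul_le_mul_of_nonneg_left h4 (by positivity)
      _ = _ := by ring
  rw [div_mul_eq_mul_div, one_mul, lt_div_iff₀ (by positivity)] at hN1
  nlinarith

theorem force_pow (g : ℕ → ℝ) (A : Set ℕ) (β δ : ℝ) (hδ : 0 < δ) (hg : ∀ N, 0 < g N)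
    (hA : Dense g A) (hlow : ∃ᶠ N : ℕ in atTop, g N ≤ (N : ℝ) ^ β ∧
      (complexity A ⌊(N : ℝ) ^ δ⌋₊ N : ℝ) ≤ (N : ℝ) ^ (1 - 2 * β - 3 * δ)) : Unbounded A := by
  apply force g A (fun N => ⌊(N : ℝ) ^ δ⌋₊) hg hA
  intro c hc
  have h1 : ∀ᶠ N : ℕ in atTop, Real.log N ≤ (N : ℝ) ^ δ := by
    have := (isLittleO_log_rpow_atTop hδ).bound (show (0 : ℝ) < 1 by norm_num)
    have h2 := tendsto_natCast_atTop_atTop.eventually this
    filter_upwards [h2, eventually_ge_atTop 1] with N hN hN1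
    have hN1' : (1 : ℝ) ≤ N := by exact_mod_cast hN1
    rw [Real.norm_of_nonneg (Real.log_nonneg hN1'), Real.norm_of_nonneg (by positivity),
      one_mul] at hN
    exact hN
  have h2 : ∀ᶠ N : ℕ in atTop, 4 / c < (N : ℝ) ^ δ :=
    ((tendsto_rpow_atTop hδ).comp tendsto_natCast_atTop_atTop).eventually_gt_atTop _
  refine (hlow.and_eventually (h1.and (h2.and (eventually_ge_atTop 1)))).mono ?_
  rintro N ⟨⟨hg1, hq1⟩, hl, hc1, hN1⟩
  have hN1' : (1 : ℝ) ≤ N := by exact_mod_cast hN1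
  have hN0 : (0 : ℝ) < N := by linarith
  have hfl : ((⌊(N : ℝ) ^ δ⌋₊ : ℕ) : ℝ) ≤ (N : ℝ) ^ δ := Nat.floor_le (by positivity)
  have hlog : 0 ≤ Real.log N := Real.log_nonneg hN1'
  have hfl0 : (0 : ℝ) ≤ ((⌊(N : ℝ) ^ δ⌋₊ : ℕ) : ℝ) := Nat.cast_nonneg _
  have h3 : (Real.log N + ((⌊(N : ℝ) ^ δ⌋₊ : ℕ) : ℝ)) ^ 2 ≤ (2 * (N : ℝ) ^ δ) ^ 2 :=
    pow_le_pow_left₀ (by positivity) (by linarith) 2
  have h4 : g N ^ 2 ≤ ((N : ℝ) ^ β) ^ 2 := pow_le_pow_left₀ (hg N).le hg1 2
  have h5 : g N ^ 2 * (Real.log N + ((⌊(N : ℝ) ^ δ⌋₊ : ℕ) : ℝ)) ^ 2 *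
      complexity A ⌊(N : ℝ) ^ δ⌋₊ N ≤
      ((N : ℝ) ^ β) ^ 2 * (2 * (N : ℝ) ^ δ) ^ 2 * (N : ℝ) ^ (1 - 2 * β - 3 * δ) := by
    apply mul_le_mul _ hq1 (Nat.cast_nonneg _) (by positivity)
    exact mul_le_mul h4 h3 (by positivity) (by positivity)
  have h6 : ((N : ℝ) ^ β) ^ 2 * (2 * (N : ℝ) ^ δ) ^ 2 * (N : ℝ) ^ (1 - 2 * β - 3 * δ) =
      4 * (N : ℝ) ^ (1 - δ) := by
    rw [mul_pow, ← Real.rpow_natCast, ← Real.rpow_natCast ((N : ℝ) ^ δ), ← Real.rpow_mul hN0.le,
      ← Real.rpow_mul hN0.le]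
    have e : (1 - δ : ℝ) = β * ((2 : ℕ) : ℝ) + (δ * ((2 : ℕ) : ℝ) + (1 - 2 * β - 3 * δ)) := by
      push_cast
      ring
    rw [e, Real.rpow_add hN0, Real.rpow_add hN0]
    ring
  refine lt_of_le_of_lt (h5.trans h6.le) ?_
  have h7 : (N : ℝ) = (N : ℝ) ^ (1 - δ) * (N : ℝ) ^ δ := by
    rw [← Real.rpow_add hN0]
    simp
  have h8 : 0 < (N : ℝ) ^ (1 - δ) := by positivity
  calc 4 * (N : ℝ) ^ (1 - δ) = c * ((N : ℝ) ^ (1 - δ) * (4 / c)) := by
        field_simp
    _ < c * ((N : ℝ) ^ (1 - δ) * (N : ℝ) ^ δ) := by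
        apply mul_lt_mul_of_pos_left _ hc
        exact mul_lt_mul_of_pos_left hc1 h8
    _ = c * N := by rw [← h7]

/-! ## Bases -/

theorem basis_dense (A : Set ℕ) (hA : ∀ᶠ n : ℕ in atTop, ∃ a ∈ A, ∃ b ∈ A, a + b = n) :
    Dense (fun _ => 1) A := by
  classical
  obtain ⟨n₀, hn₀⟩ := eventually_atTop.1 hA
  refine ⟨4, by norm_num, ?_⟩
  filter_upwards [eventually_ge_atTop (2 * n₀ + 16)] with N hN
  obtain ⟨S, hS⟩ : ∃ S : Finset ℕ, S = (Finset.Icc 0 N).filter fun a => a ∈ A := ⟨_, rfl⟩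
  have h1 : Finset.Icc n₀ N ⊆ (S ×ˢ S).image fun p : ℕ × ℕ => p.1 + p.2 := by
    intro n hn
    rw [Finset.mem_Icc] at hn
    obtain ⟨a, ha, b, hb, hab⟩ := hn₀ n hn.1
    rw [Finset.mem_image]
    refine ⟨(a, b), ?_, hab⟩
    rw [Finset.mem_product, hS, Finset.mem_filter, Finset.mem_filter, Finset.mem_Icc,
      Finset.mem_Icc]
    exact ⟨⟨⟨Nat.zero_le _, by simp only; omega⟩, ha⟩, ⟨⟨Nat.zero_le _, by simp only; omega⟩, hb⟩⟩
  have h2 := (Finset.card_le_card h1).trans Finset.card_image_le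
  rw [Nat.card_Icc, Finset.card_product] at h2
  have h3 : S.card ≤ (A ∩ Set.Icc 1 N).ncard + 1 := by
    have h4 : (S : Set ℕ) ⊆ (A ∩ Set.Icc 1 N) ∪ {0} := by
      intro x hx
      rw [Finset.mem_coe, hS, Finset.mem_filter, Finset.mem_Icc] at hx
      rcases Nat.eq_zero_or_pos x with h | h
      · exact Or.inr h
      · exact Or.inl ⟨hx.2, h, hx.1.2⟩
    have h5 := Set.ncard_le_ncard h4 (((Set.finite_Icc 1 N).subset fun _ h => h.2).union
      (Set.finite_singleton _))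
    have h6 := Set.ncard_union_le (A ∩ Set.Icc 1 N) {0}
    rw [Set.ncard_singleton] at h6
    rw [Set.ncard_coe_finset] at h5
    exact h5.trans h6
  obtain ⟨m, hm⟩ : ∃ m, m = (A ∩ Set.Icc 1 N).ncard := ⟨_, rfl⟩
  rw [← hm] at h3 ⊢
  have h4 : N + 1 - n₀ ≤ (m + 1) * (m + 1) := h2.trans (Nat.mul_le_mul h3 h3)
  rw [div_one]
  apply Real.sqrt_le_iff.2
  refine ⟨by positivity, ?_⟩
  have h5 : N ≤ 2 * ((m + 1) * (m + 1)) := by omega
  have h6 : 1 ≤ m := by
    by_contra hcon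
    have : m = 0 := by omega
    subst this
    omega
  have h7 : N ≤ (4 * m) ^ 2 := by nlinarith
  exact_mod_cast h7

theorem result :
    -- (0) the complexity is attained, positive and at most `N + 1`
    (∀ (A : Set ℕ) (k N : ℕ), 1 ≤ complexity A k N ∧ complexity A k N ≤ N + 1 ∧
      ∃ (M : NFA Bool (Fin (complexity A k N))) (B : Set ℕ), lang M N = {word B N} ∧
        errors A B N ≤ k) ∧
    -- (1) the bound
    (∀ (A B : Set ℕ) (R N h k q : ℕ) (M : NFA Bool (Fin q)),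
      (∀ n < 2 * N, rep A n ≤ R) → word B N ∈ M.accepts → errors A B N ≤ k →
      (lang M N).ncard ≤ 2 ^ h →
      (A ∩ Set.Iio N).ncard ^ 2 ≤ 8 * (R + 1) ^ 2 * q * (h + k + Nat.clog 2 q + 2) ^ 2) ∧
    -- (2) it is sharp up to the logarithm
    (∀ q N : ℕ, 1 ≤ q → q ≤ N → ∃ A : Set ℕ, (∀ n, rep A n ≤ 2) ∧
      complexity A 0 N ≤ q + 1 ∧ q ≤ 32 * (A ∩ Set.Iio N).ncard ^ 2) ∧
    -- (3) thresholds
    (∀ (g : ℕ → ℝ) (A : Set ℕ) (k : ℕ → ℕ), (∀ N, 0 < g N) → Dense g A →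
      (∀ c : ℝ, 0 < c → ∃ᶠ N : ℕ in atTop,
        g N ^ 2 * (Real.log N + k N) ^ 2 * complexity A (k N) N < c * N) → Unbounded A) ∧
    -- (4) powers
    (∀ (g : ℕ → ℝ) (A : Set ℕ) (β δ : ℝ), 0 < δ → (∀ N, 0 < g N) → Dense g A →
      (∃ᶠ N : ℕ in atTop, g N ≤ (N : ℝ) ^ β ∧
        (complexity A ⌊(N : ℝ) ^ δ⌋₊ N : ℝ) ≤ (N : ℝ) ^ (1 - 2 * β - 3 * δ)) → Unbounded A) ∧
    -- (5) bases of order 2
    (∀ (A : Set ℕ) (k : ℕ → ℕ), (∀ᶠ n : ℕ in atTop, ∃ a ∈ A, ∃ b ∈ A, a + b = n) →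
      (∀ c : ℝ, 0 < c → ∃ᶠ N : ℕ in atTop,
        (Real.log N + k N) ^ 2 * complexity A (k N) N < c * N) → Unbounded A) := by
  refine ⟨fun A k N => ⟨complexity_pos A k N, complexity_le' A k N, complexity_spec A k N⟩,
    fun A B R N h k q M h1 h2 h3 h4 => main A B R N h k q M h1 h2 h3 h4,
    fun q N h1 h2 => sharp q N h1 h2,
    fun g A k h1 h2 h3 => force g A k h1 h2 h3,
    fun g A β δ h1 h2 h3 h4 => force_pow g A β δ h1 h2 h3 h4, ?_⟩
  intro A k hA hlow
  refine force (fun _ => 1) A k (fun _ => one_pos) (basis_dense A hA) ?_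
  intro c hc
  refine (hlow c hc).mono fun N hN => ?_
  simpa using hN

end Pool.Agent.Results.MP_491344_nt.AutomaticComplexity
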