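import Mathlib
import Pool.Agent.X6.Dens.A6

/-!
# MP_491344_nt: a density threshold for sets near quadratic sequences

`rep A n` is the number of ordered pairs of elements of `A` with sum `n`.

There are functions `g → ∞` and `W → ∞` such that `g` forces unbounded representations inside the class
of all sets `A` which, up to `o(√N / g(N))` elements below `N`, lie within distance `W(N)` of a
finite union of real quadratic sequences `c x² + τ`, `c > 0` (the finite union depends on `A`, the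
functions `g` and `W` do not). The density condition `|A ∩ [1, N]| ≫ √N / g(N)` is only needed for
arbitrarily large `N`.

The sequences `c x² + τ` with irrational `c` are uniformly distributed in the residue classes modulo
every integer, so that these sets are not thin; the proof uses the distribution of the indices `x`
modulo `p²` for suitable sets of primes `p` (`Pool.Agent.X6.Dens`).
-/

set_option autoImplicit false

namespace Pool.Agent.Results.MP_491344_nt.QuadraticSequences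

open Filter Topology Pool.Agent.X6.NearPow

/-- the number of ordered pairs of elements of `A` with sum `n` -/
noncomputable def rep (A : Set ℕ) (n : ℕ) : ℕ :=
  {p : ℕ × ℕ | p.1 ∈ A ∧ p.2 ∈ A ∧ p.1 + p.2 = n}.ncard

/-- The elements of `A` in `[1, N]` whose distance from all terms of the sequences
`c_i x² + τ_i`, `i < m`, is larger than `w`. -/
def off (A : Set ℕ) (m : ℕ) (c τ : Fin m → ℝ) (w : ℝ) (N : ℕ) : Set ℕ :=
  {a | a ∈ A ∧ 1 ≤ a ∧ a ≤ N ∧ ∀ (i : Fin m) (x : ℕ), w < |(a : ℝ) - (c i * (x : ℝ) ^ 2 + τ i)|}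

theorem r_le_rep (A : Set ℕ) (n : ℕ) : r A 2 n ≤ rep A n := by
  classical
  have hfin : {p : ℕ × ℕ | p.1 ∈ A ∧ p.2 ∈ A ∧ p.1 + p.2 = n}.Finite := by
    refine (Set.finite_Iic ((n, n) : ℕ × ℕ)).subset ?_
    rintro ⟨a, b⟩ ⟨-, -, h⟩
    have h' : a + b = n := h
    exact ⟨by show a ≤ n; omega, by show b ≤ n; omega⟩
  have hsub : reps A 2 n ⊆
      (fun p : ℕ × ℕ => ({p.1, p.2} : Multiset ℕ)) '' {p : ℕ × ℕ | p.1 ∈ A ∧ p.2 ∈ A ∧ p.1 + p.2 = n} := by
    rintro s ⟨hc, hA, hs⟩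
    obtain ⟨a, b, rfl⟩ := Multiset.card_eq_two.1 hc
    refine ⟨(a, b), ⟨hA a (by simp), hA b (by simp), ?_⟩, rfl⟩
    simpa using hs
  exact (Set.ncard_le_ncard hsub (hfin.image _)).trans (Set.ncard_image_le hfin)

open Classical in
/-- the uniform bound, diagonalised -/
theorem exists_kappa : ∃ κ : ℕ → ℕ, Monotone κ ∧ Tendsto κ atTop atTop ∧ (∀ M, κ M ≤ M) ∧
    ∀ M, 1 ≤ κ M → ∀ A : Set ℕ, (∀ n, r A 2 n ≤ κ M) → ∀ N : ℕ, M ≤ N → ∀ c τ : ℝ,
      1 / (κ M : ℝ) ≤ c →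
      (((Finset.range N).filter
        (fun x : ℕ => ∃ a ∈ A, |(a : ℝ) - (c * (x : ℝ) ^ 2 + τ)| ≤ κ M)).card : ℝ) ≤
          1 / (κ M : ℝ) ^ 4 * N := by
  classical
  have hmain : ∀ k : ℕ, ∃ N₀ : ℕ, 1 ≤ k → ∀ A : Set ℕ, (∀ n, r A 2 n ≤ k) → ∀ N : ℕ, N₀ ≤ N →
      ∀ c τ : ℝ, 1 / (k : ℝ) ≤ c → (((Finset.range N).filter
        (fun x : ℕ => ∃ a ∈ A, |(a : ℝ) - (c * (x : ℝ) ^ 2 + τ)| ≤ k)).card : ℝ) ≤
          1 / (k : ℝ) ^ 4 * N := by
    intro k
    rcases Nat.eq_zero_or_pos k with rfl | hk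
    · exact ⟨0, fun h => absurd h (by norm_num)⟩
    · have hk' : (0 : ℝ) < k := by exact_mod_cast hk
      obtain ⟨N₀, h⟩ := Pool.Agent.X6.Dens.main 2 le_rfl k (1 / (k : ℝ)) k (1 / (k : ℝ) ^ 4)
        (by positivity) (by positivity)
      refine ⟨N₀, fun _ A hA N hN c τ hc => ?_⟩
      have := h A hA N hN c τ hc
      exact this
  choose N₀ hN₀ using hmain
  set N₁ : ℕ → ℕ := fun k => k + ∑ j ∈ Finset.range (k + 1), N₀ j with hN₁
  have h1 : ∀ k, N₀ k ≤ N₁ k := by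
    intro k
    have := Finset.single_le_sum (f := N₀) (fun _ _ => Nat.zero_le _)
      (Finset.mem_range.2 (Nat.lt_add_one k))
    simp only [hN₁]
    omega
  have h2 : ∀ k, k ≤ N₁ k := fun k => Nat.le_add_right _ _
  refine ⟨fun M => Nat.findGreatest (fun k => N₁ k ≤ M) M, ?_, ?_, ?_, ?_⟩
  · intro M M' hM
    exact Nat.findGreatest_mono (fun k hk => le_trans hk hM) hM
  · rw [tendsto_atTop]
    intro k
    filter_upwards [eventually_ge_atTop (N₁ k)] with M hM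
    exact Nat.le_findGreatest ((h2 k).trans hM) hM
  · intro M
    exact Nat.findGreatest_le M
  · intro M hM A hA N hN c τ hc
    have h3 : N₁ (Nat.findGreatest (fun k => N₁ k ≤ M) M) ≤ M :=
      Nat.findGreatest_of_ne_zero (P := fun k => N₁ k ≤ M) rfl (by
        intro h0
        have hM' : 1 ≤ Nat.findGreatest (fun k => N₁ k ≤ M) M := hM
        omega)
    exact hN₀ _ hM A hA N ((h1 _).trans (h3.trans hN)) c τ hc

open Classical in
/-- the number of elements of `A ∩ [1, X]` near one sequence -/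
theorem near_small (κ : ℕ → ℕ) (hκ2 : Tendsto κ atTop atTop) (hκ3 : ∀ M, κ M ≤ M)
    (hκ4 : ∀ M, 1 ≤ κ M → ∀ A : Set ℕ, (∀ n, r A 2 n ≤ κ M) → ∀ N : ℕ, M ≤ N → ∀ c τ : ℝ,
      1 / (κ M : ℝ) ≤ c →
      (((Finset.range N).filter
        (fun x : ℕ => ∃ a ∈ A, |(a : ℝ) - (c * (x : ℝ) ^ 2 + τ)| ≤ κ M)).card : ℝ) ≤
          1 / (κ M : ℝ) ^ 4 * N)
    (A : Set ℕ) (K : ℕ) (hA : ∀ n, r A 2 n ≤ K) (c τ : ℝ) (hc : 0 < c) :
    ∀ ε : ℝ, 0 < ε → ∀ᶠ X : ℕ in atTop,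
      (((Finset.Icc 1 X).filter (fun a => a ∈ A ∧
        ∃ x : ℕ, |(a : ℝ) - (c * (x : ℝ) ^ 2 + τ)| ≤ κ (Nat.sqrt (Nat.sqrt X)))).card : ℝ) *
          ((κ (Nat.sqrt (Nat.sqrt X)) : ℝ) + 1) ≤ ε * Real.sqrt X := by
  intro ε hε
  set D : ℝ := Real.sqrt (2 / c) with hD
  have hD0 : 0 < D := Real.sqrt_pos.2 (by positivity)
  have hsq : Tendsto (fun X : ℕ => Nat.sqrt (Nat.sqrt X)) atTop atTop := by
    have h1 : Tendsto Nat.sqrt atTop atTop := by
      rw [tendsto_atTop]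
      intro k
      filter_upwards [eventually_ge_atTop (k * k)] with X hX
      exact Nat.le_sqrt.2 hX
    exact h1.comp h1
  have hk1 : ∀ k : ℕ, ∀ᶠ X : ℕ in atTop, k ≤ κ (Nat.sqrt (Nat.sqrt X)) := fun k =>
    (hκ2.comp hsq).eventually_ge_atTop k
  filter_upwards [hk1 1, hk1 K, hk1 ⌈1 / c⌉₊, hk1 ⌈12 * D / ε⌉₊,
    hsq.eventually_ge_atTop (⌈|τ|⌉₊ + 1), hsq.eventually_ge_atTop (⌈1 / D⌉₊ + 1),
    eventually_ge_atTop 16] with X h1 h2 h3 h4 h5 h6 h7
  set M := Nat.sqrt (Nat.sqrt X) with hM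
  set k := κ M with hk
  have hkr : (1 : ℝ) ≤ k := by exact_mod_cast h1
  have hk0 : (0 : ℝ) < k := by linarith
  have hX0 : (16 : ℝ) ≤ X := by exact_mod_cast h7
  set Y : ℝ := Real.sqrt X with hY
  have hYsq : Y ^ 2 = X := Real.sq_sqrt (by linarith)
  have hY0 : 0 ≤ Y := Real.sqrt_nonneg _
  -- `M ^ 4 ≤ X`
  have hM4 : M ^ 2 ≤ Nat.sqrt X := by
    have := Nat.sqrt_le (Nat.sqrt X)
    rw [← hM] at this
    nlinarith
  have hM5 : (M : ℝ) ^ 2 ≤ Y := by
    have e1 : ((M ^ 2 : ℕ) : ℝ) ≤ (Nat.sqrt X : ℝ) := by exact_mod_cast hM4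
    have e2 : (Nat.sqrt X : ℝ) ≤ Y := Real.nat_sqrt_le_real_sqrt
    push_cast at e1
    linarith
  have hMτ : |τ| ≤ M := by
    have e1 : |τ| ≤ (⌈|τ|⌉₊ : ℝ) := Nat.le_ceil _
    have e2 : ((⌈|τ|⌉₊ + 1 : ℕ) : ℝ) ≤ M := by exact_mod_cast h5
    push_cast at e2
    linarith
  have hMD : 1 ≤ D * M := by
    have e1 : 1 / D ≤ (⌈1 / D⌉₊ : ℝ) := Nat.le_ceil _
    have e2 : ((⌈1 / D⌉₊ + 1 : ℕ) : ℝ) ≤ M := by exact_mod_cast h6
    push_cast at e2
    have e3 : 1 / D ≤ M := by linarith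
    rw [div_le_iff₀ hD0] at e3
    linarith
  have hM1 : (1 : ℝ) ≤ M := by
    have : 1 ≤ M := by omega
    exact_mod_cast this
  have hkM : (k : ℝ) ≤ M := by exact_mod_cast hκ3 M
  have hMY : (M : ℝ) ≤ D * Y := by nlinarith
  have hMY2 : 1 ≤ D * Y := by linarith
  have hM2X : 2 * (M : ℝ) ≤ X := by
    have e1 : (M : ℝ) ≤ Y := by nlinarith
    have e2 : 4 ≤ Y := by
      rw [hY]
      exact Real.le_sqrt_of_sq_le (by norm_num; linarith)
    nlinarith
  set N : ℕ := ⌊D * Y⌋₊ + 1 with hN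
  have hMN : M ≤ N := by
    have := Nat.le_floor hMY
    omega
  have hNr : (N : ℝ) ≤ 2 * (D * Y) := by
    have e1 := Nat.floor_le (by positivity : 0 ≤ D * Y)
    rw [hN]
    push_cast
    linarith
  set T := (Finset.Icc 1 X).filter (fun a => a ∈ A ∧
        ∃ x : ℕ, |(a : ℝ) - (c * (x : ℝ) ^ 2 + τ)| ≤ k) with hT
  have hch : ∀ a : ℕ, ∃ x : ℕ, (a ∈ T → |(a : ℝ) - (c * (x : ℝ) ^ 2 + τ)| ≤ k) := by
    intro a
    by_cases ha : a ∈ T
    · obtain ⟨x, hx⟩ := (Finset.mem_filter.1 ha).2.2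
      exact ⟨x, fun _ => hx⟩
    · exact ⟨0, fun h1 => absurd h1 ha⟩
  choose f hf using hch
  set S := (Finset.range N).filter
    (fun x : ℕ => ∃ a ∈ A, |(a : ℝ) - (c * (x : ℝ) ^ 2 + τ)| ≤ k) with hS
  have hmaps : ∀ a ∈ T, f a ∈ S := by
    intro a ha
    have g1 := hf a ha
    have g2 := Finset.mem_filter.1 ha
    rw [hS, Finset.mem_filter, Finset.mem_range]
    refine ⟨?_, a, g2.2.1, g1⟩
    have g3 : (a : ℝ) ≤ X := by exact_mod_cast (Finset.mem_Icc.1 g2.1).2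
    have g4 : c * (f a : ℝ) ^ 2 ≤ 2 * X := by
      have e1 := (abs_le.1 g1).1
      have e2 := neg_abs_le τ
      linarith
    have g5 : (f a : ℝ) ^ 2 ≤ (D * Y) ^ 2 := by
      rw [mul_pow, hYsq, hD, Real.sq_sqrt (by positivity), div_mul_eq_mul_div, le_div_iff₀ hc]
      linarith
    have g6 : (f a : ℝ) ≤ D * Y := abs_le_of_sq_le_sq' g5 (by positivity) |>.2
    have g7 := Nat.le_floor g6
    omega
  have hcard : T.card ≤ (⌊2 * (k : ℝ)⌋₊ + 1) * S.card := by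
    refine Finset.card_le_mul_card_image_of_maps_to hmaps _ ?_
    intro x _
    refine card_near (y := c * (x : ℝ) ^ 2 + τ) (z := k) ?_
    intro a ha
    rw [Finset.mem_filter] at ha
    rw [← ha.2]
    exact hf a ha.1
  have hSn : (S.card : ℝ) ≤ 1 / (k : ℝ) ^ 4 * N := by
    refine hκ4 M h1 A (fun n => (hA n).trans h2) N hMN c τ ?_
    have e1 : 1 / c ≤ (k : ℝ) := (Nat.le_ceil _).trans (by exact_mod_cast h3)
    rw [div_le_iff₀ hc] at e1
    rw [div_le_iff₀ hk0]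
    linarith
  have hfl : ((⌊2 * (k : ℝ)⌋₊ : ℕ) : ℝ) ≤ 2 * k := Nat.floor_le (by positivity)
  have hTc : (T.card : ℝ) ≤ (2 * k + 1) * (1 / (k : ℝ) ^ 4 * (2 * (D * Y))) := by
    calc (T.card : ℝ) ≤ (((⌊2 * (k : ℝ)⌋₊ + 1) * S.card : ℕ) : ℝ) := by exact_mod_cast hcard
      _ = (((⌊2 * (k : ℝ)⌋₊ : ℕ) : ℝ) + 1) * S.card := by push_cast; ring
      _ ≤ (2 * k + 1) * (1 / (k : ℝ) ^ 4 * N) := by
          apply mul_le_mul (by linarith) hSn (by positivity) (by positivity)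
      _ ≤ (2 * k + 1) * (1 / (k : ℝ) ^ 4 * (2 * (D * Y))) := by
          apply mul_le_mul_of_nonneg_left _ (by positivity)
          apply mul_le_mul_of_nonneg_left hNr (by positivity)
  have hkε : 12 * D ≤ ε * k := by
    have e1 : 12 * D / ε ≤ (k : ℝ) := (Nat.le_ceil _).trans (by exact_mod_cast h4)
    rw [div_le_iff₀ hε] at e1
    linarith
  have hk2 : (2 * (k : ℝ) + 1) * (k + 1) ≤ 6 * k ^ 2 := by nlinarith
  calc (T.card : ℝ) * ((k : ℝ) + 1)
      ≤ (2 * k + 1) * (1 / (k : ℝ) ^ 4 * (2 * (D * Y))) * (k + 1) :=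
        mul_le_mul_of_nonneg_right hTc (by positivity)
    _ = ((2 * (k : ℝ) + 1) * (k + 1)) * (1 / (k : ℝ) ^ 4 * (2 * (D * Y))) := by ring
    _ ≤ (6 * k ^ 2) * (1 / (k : ℝ) ^ 4 * (2 * (D * Y))) :=
        mul_le_mul_of_nonneg_right hk2 (by positivity)
    _ = 12 * D * Y / k ^ 2 := by field_simp; ring
    _ ≤ ε * Y := by
        rw [div_le_iff₀ (by positivity)]
        have e1 : (12 * D) * Y ≤ (ε * k) * Y := mul_le_mul_of_nonneg_right hkε hY0
        have e2 : (ε * k) * Y ≤ ε * Y * k ^ 2 := by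
          have : (ε * Y) * (k : ℝ) ≤ (ε * Y) * k ^ 2 := by
            apply mul_le_mul_of_nonneg_left _ (by positivity)
            nlinarith
          linarith
        linarith

/-- **A threshold for sets near quadratic sequences.** -/
theorem result : ∃ g W : ℕ → ℝ, Monotone g ∧ Monotone W ∧ (∀ N, 0 < g N) ∧
    Tendsto g atTop atTop ∧ Tendsto W atTop atTop ∧
    ∀ (A : Set ℕ) (m : ℕ) (c τ : Fin m → ℝ), (∀ i, 0 < c i) →
      (∀ ε : ℝ, 0 < ε → ∀ᶠ N : ℕ in atTop,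
        ((off A m c τ (W N) N).ncard : ℝ) ≤ ε * (Real.sqrt N / g N)) →
      (∃ C : ℝ, 0 < C ∧ ∃ᶠ N : ℕ in atTop,
        Real.sqrt N / g N ≤ C * ((A ∩ Set.Icc 1 N).ncard : ℝ)) →
      ∀ K : ℕ, ∃ n, K < rep A n := by
  classical
  obtain ⟨κ, hκ1, hκ2, hκ3, hκ4⟩ := exists_kappa
  have hsm : Monotone (fun X : ℕ => Nat.sqrt (Nat.sqrt X)) := fun a b hab =>
    Nat.sqrt_le_sqrt (Nat.sqrt_le_sqrt hab)
  have hsq : Tendsto (fun X : ℕ => Nat.sqrt (Nat.sqrt X)) atTop atTop := by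
    have h1 : Tendsto Nat.sqrt atTop atTop := by
      rw [tendsto_atTop]
      intro k
      filter_upwards [eventually_ge_atTop (k * k)] with X hX
      exact Nat.le_sqrt.2 hX
    exact h1.comp h1
  have hWt : Tendsto (fun X : ℕ => (κ (Nat.sqrt (Nat.sqrt X)) : ℝ)) atTop atTop :=
    tendsto_natCast_atTop_atTop.comp (hκ2.comp hsq)
  refine ⟨fun X => (κ (Nat.sqrt (Nat.sqrt X)) : ℝ) + 1, fun X => (κ (Nat.sqrt (Nat.sqrt X)) : ℝ),
    ?_, ?_, ?_, ?_, hWt, ?_⟩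
  · intro a b hab
    have h1 : κ (Nat.sqrt (Nat.sqrt a)) ≤ κ (Nat.sqrt (Nat.sqrt b)) := hκ1 (hsm hab)
    have h2 : (κ (Nat.sqrt (Nat.sqrt a)) : ℝ) ≤ κ (Nat.sqrt (Nat.sqrt b)) := by exact_mod_cast h1
    simpa using h2
  · intro a b hab
    have h1 : κ (Nat.sqrt (Nat.sqrt a)) ≤ κ (Nat.sqrt (Nat.sqrt b)) := hκ1 (hsm hab)
    have h2 : (κ (Nat.sqrt (Nat.sqrt a)) : ℝ) ≤ κ (Nat.sqrt (Nat.sqrt b)) := by exact_mod_cast h1
    exact h2
  · intro N
    positivity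
  · exact tendsto_atTop_add_const_right _ _ hWt
  · rintro A m c τ hc hoff ⟨C, hC, hfreq⟩ K
    by_contra hcon
    push Not at hcon
    have hA : ∀ n, r A 2 n ≤ K := fun n => (r_le_rep A n).trans (hcon n)
    set ε : ℝ := 1 / (2 * C * (m + 1)) with hε
    have hε0 : 0 < ε := by positivity
    have h1 := hoff ε hε0
    have h2 : ∀ᶠ X : ℕ in atTop, ∀ i : Fin m,
        (((Finset.Icc 1 X).filter (fun a => a ∈ A ∧
          ∃ x : ℕ, |(a : ℝ) - (c i * (x : ℝ) ^ 2 + τ i)| ≤ κ (Nat.sqrt (Nat.sqrt X)))).card : ℝ) *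
            ((κ (Nat.sqrt (Nat.sqrt X)) : ℝ) + 1) ≤ ε * Real.sqrt X := by
      rw [eventually_all]
      intro i
      exact near_small κ hκ2 hκ3 hκ4 A K hA (c i) (τ i) (hc i) ε hε0
    obtain ⟨X, hX, hX1, hX2, hX3⟩ := (hfreq.and_eventually (h1.and (h2.and (eventually_ge_atTop 1)))).exists
    set k : ℝ := (κ (Nat.sqrt (Nat.sqrt X)) : ℝ) with hk
    have hk0 : 0 < k + 1 := by positivity
    set Y : ℝ := Real.sqrt X with hY
    have hY0 : 0 < Y := Real.sqrt_pos.2 (by exact_mod_cast hX3)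
    set F : Finset ℕ := (Finset.Icc 1 X).filter (fun a => a ∈ A) with hF
    set F0 : Finset ℕ := (Finset.Icc 1 X).filter
      (fun a => a ∈ A ∧ ∀ (i : Fin m) (x : ℕ), k < |(a : ℝ) - (c i * (x : ℝ) ^ 2 + τ i)|) with hF0
    let Fi : Fin m → Finset ℕ := fun i => (Finset.Icc 1 X).filter
      (fun a => a ∈ A ∧ ∃ x : ℕ, |(a : ℝ) - (c i * (x : ℝ) ^ 2 + τ i)| ≤ k)
    have hcov : F ⊆ F0 ∪ Finset.univ.biUnion Fi := by
      intro a ha
      rw [hF, Finset.mem_filter] at ha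
      rw [Finset.mem_union, Finset.mem_biUnion]
      by_cases h1 : ∀ (i : Fin m) (x : ℕ), k < |(a : ℝ) - (c i * (x : ℝ) ^ 2 + τ i)|
      · left
        rw [hF0, Finset.mem_filter]
        exact ⟨ha.1, ha.2, h1⟩
      · right
        push Not at h1
        obtain ⟨i, x, hx⟩ := h1
        exact ⟨i, Finset.mem_univ _, Finset.mem_filter.2 ⟨ha.1, ha.2, x, hx⟩⟩
    have hFA : ((A ∩ Set.Icc 1 X).ncard : ℝ) = F.card := by
      have e1 : A ∩ Set.Icc 1 X = ((F : Finset ℕ) : Set ℕ) := by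
        ext x
        simp only [Set.mem_inter_iff, Set.mem_Icc, hF, Finset.coe_filter, Finset.mem_Icc,
          Set.mem_ofPred_eq]
        tauto
      rw [e1, Set.ncard_coe_finset]
    have hF0c : (F0.card : ℝ) ≤ ε * (Y / (k + 1)) := by
      have e1 : off A m c τ k X = ((F0 : Finset ℕ) : Set ℕ) := by
        ext x
        simp only [off, hF0, Set.mem_ofPred_eq, Finset.coe_filter, Finset.mem_Icc]
        tauto
      have e2 := hX1
      rw [e1, Set.ncard_coe_finset] at e2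
      exact e2
    have hFic : ∀ i, ((Fi i).card : ℝ) ≤ ε * (Y / (k + 1)) := by
      intro i
      have e1 := hX2 i
      rw [← mul_div_assoc, le_div_iff₀ hk0]
      exact e1
    have hFc : (F.card : ℝ) ≤ (m + 1) * (ε * (Y / (k + 1))) := by
      have h1 : F.card ≤ F0.card + ∑ i, (Fi i).card :=
        (Finset.card_le_card hcov).trans ((Finset.card_union_le _ _).trans
          (Nat.add_le_add_left Finset.card_biUnion_le _))
      have h2 : (F.card : ℝ) ≤ F0.card + ∑ i, ((Fi i).card : ℝ) := by exact_mod_cast h1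
      have h3 : ∑ i, ((Fi i).card : ℝ) ≤ ∑ _i : Fin m, ε * (Y / (k + 1)) :=
        Finset.sum_le_sum (fun i _ => hFic i)
      rw [Finset.sum_const, Finset.card_univ, Fintype.card_fin, nsmul_eq_mul] at h3
      linarith
    have hX' : Y / (k + 1) ≤ C * F.card := by
      have := hX
      rw [hFA] at this
      exact this
    have hfin : C * ((m + 1) * (ε * (Y / (k + 1)))) = (Y / (k + 1)) / 2 := by
      rw [hε]
      field_simp
    have hpos : 0 < Y / (k + 1) := by positivity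
    have h5 := mul_le_mul_of_nonneg_left hFc hC.le
    linarith

end Pool.Agent.Results.MP_491344_nt.QuadraticSequences
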