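import Pool.Agent.X8.OH.LinThin2

/-!
# MP_491344_nt, Q1: no approximate linear relations for thin sets with bounded `r_A`

Let `r_A(n)` be the number of ordered pairs `(a, b) ∈ A × A` with `a + b = n`.  Given `K, L, B, C`
there are `c > 0` and `E` such that for every `A` with `r_A ≤ K`, every non-decreasing `g ≥ 1` with
`√N / g(N) ≤ C |A ∩ [1, N]|` for large `N`, and all large `N` with `g(N)^{2E} ≤ c N`: for ALL sets
`W` of at most `L` shifts `k ≤ (c / g(N)^E) N`, ALL complex coefficients `a_k` with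
`max |a_k| = 1`, and ALL trigonometric polynomials `P(n) = ∑ α_θ e(n θ)` with `|P| ≤ B` and
`∑ |α_θ| (log N)² g(N)^E ≤ √N`, the inequality
`|∑_k a_k r_A(n - k) - P(n)| ≥ c / g(N)^E` holds for at least `(c / g(N)^E) N` of the `n ≤ N`.

Consequence (second part of `result`): for every `ε(N) → 0` there is a non-decreasing `g → ∞`
which forces unbounded representations in the class of all sets `A` for which, for some `L`, `B`
and infinitely many `N`, there is an approximate linear relation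
`|∑_k a_k r_A(n - k) - P(n)| < ε(N)` for all but fewer than `ε(N) N` of the `n` in `[max W, N]`.

Method: let `F(z) = ∑_{a ∈ A} z^a` and `G(z) = ∑ a_k z^k` on the circle of radius `1 - λ / N` with
`λ` a power of `g(N)`.  By the bounds for the mean values of `|F|²` and `|F|⁴` there is a density
`φ ≤ 1` of mass `≥ δ ≍ g(N)^{-2}` with `|F|² ≥ |F|²_2 φ / 8`.  The small ball inequality
`∫ φ |G| ≥ c(L) δ^{e(L)} max |a_k|` for exponential sums with `L` terms (a weak form of the lemma of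
Turán and Nazarov) is proved by induction on `L`, with polynomial dependence on the mass `δ`.
-/

set_option autoImplicit false

open Finset Filter Topology

namespace Pool.Agent.Results.MP_491344_nt.ThinLinearRelations

/-- The number `r_A(n)` of ordered pairs `(a, b) ∈ A × A` with `a + b = n`. -/
noncomputable def rep (A : Set ℕ) (n : ℕ) : ℕ :=
  Set.ncard {p : ℕ × ℕ | p.1 ∈ A ∧ p.2 ∈ A ∧ p.1 + p.2 = n}

/-- The trigonometric polynomial `P(n) = ∑_{θ ∈ Θ} α_θ e^{2 π i n θ}`. -/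
noncomputable def trig (Θ : Finset ℝ) (α : ℝ → ℂ) (n : ℕ) : ℂ :=
  ∑ θ ∈ Θ, α θ * Complex.exp (2 * Real.pi * n * θ * Complex.I)

/-! ### from ordered to unordered pairs -/

open Classical in
/-- pairs from `A` with sum `n` -/
noncomputable def U (A : Set ℕ) (n : ℕ) : Finset (ℕ × ℕ) :=
  (antidiagonal n).filter (fun p => p.1 ∈ A ∧ p.2 ∈ A)

theorem mem_U {A : Set ℕ} {n : ℕ} {p : ℕ × ℕ} :
    p ∈ U A n ↔ p.1 ∈ A ∧ p.2 ∈ A ∧ p.1 + p.2 = n := by
  classical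
  simp only [U, Finset.mem_filter, HasAntidiagonal.mem_antidiagonal]
  tauto

theorem rep_U (A : Set ℕ) (n : ℕ) : rep A n = (U A n).card := by
  unfold rep
  rw [← Set.ncard_coe_finset]
  congr 1
  ext p
  rw [Set.mem_ofPred_eq, Finset.mem_coe, mem_U]

theorem Rn_U (A : Set ℕ) (n : ℕ) :
    Pool.Agent.H303R3.Rn A (Pool.Agent.H303R3.ET.Mo (k := 2)) n =
      ((U A n).filter (fun p => p.1 ≤ p.2)).card := by
  classical
  unfold Pool.Agent.H303R3.Rn
  refine Finset.card_nbij' (fun a => (a 0, a 1)) (fun p => ![p.1, p.2]) ?_ ?_ ?_ ?_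
  · intro a ha
    rw [Finset.mem_coe, Finset.mem_filter, Pool.Agent.H303R3.mem_tup] at ha
    obtain ⟨⟨h1, h2⟩, h3⟩ := ha
    rw [Finset.mem_coe, Finset.mem_filter, mem_U]
    refine ⟨⟨h1 0, h1 1, ?_⟩, h3 (by decide : (0 : Fin 2) ≤ 1)⟩
    rw [Fin.sum_univ_two] at h2
    exact h2
  · intro p hp
    rw [Finset.mem_coe, Finset.mem_filter, mem_U] at hp
    obtain ⟨⟨h1, h2, h3⟩, h4⟩ := hp
    rw [Finset.mem_coe, Finset.mem_filter, Pool.Agent.H303R3.mem_tup]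
    refine ⟨⟨fun i => ?_, ?_⟩, ?_⟩
    · fin_cases i
      · exact h1
      · exact h2
    · rw [Fin.sum_univ_two]
      exact h3
    · intro i j hij
      fin_cases i <;> fin_cases j
      · exact le_rfl
      · exact h4
      · exact absurd hij (by decide)
      · exact le_rfl
  · intro a _
    funext i
    fin_cases i <;> rfl
  · intro p _
    rfl

theorem rep_two (A : Set ℕ) (n : ℕ) (hn : ∀ a ∈ A, 2 * a ≠ n) :
    rep A n = 2 * Pool.Agent.H303R3.Rn A (Pool.Agent.H303R3.ET.Mo (k := 2)) n := by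
  classical
  rw [rep_U, Rn_U, ← Finset.card_filter_add_card_filter_not (s := U A n) (fun p => p.1 ≤ p.2),
    two_mul]
  congr 1
  refine Finset.card_nbij' (fun p => p.swap) (fun p => p.swap) ?_ ?_ ?_ ?_
  · intro p hp
    rw [Finset.mem_coe, Finset.mem_filter, mem_U] at hp ⊢
    simp only [Prod.fst_swap, Prod.snd_swap]
    exact ⟨⟨hp.1.2.1, hp.1.1, by omega⟩, by omega⟩
  · intro p hp
    rw [Finset.mem_coe, Finset.mem_filter, mem_U] at hp ⊢
    simp only [Prod.fst_swap, Prod.snd_swap]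
    refine ⟨⟨hp.1.2.1, hp.1.1, by omega⟩, ?_⟩
    intro hc
    apply hn p.1 hp.1.1
    omega
  · intro p _; simp
  · intro p _; simp

theorem Rn_le_rep (A : Set ℕ) (n : ℕ) :
    Pool.Agent.H303R3.Rn A (Pool.Agent.H303R3.ET.Mo (k := 2)) n ≤ rep A n := by
  rw [rep_U, Rn_U]
  exact Finset.card_filter_le _ _

open Classical in
/-- a set with bounded representation function is thin -/
theorem thin {A : Set ℕ} {K : ℕ} (hK : ∀ n, rep A n ≤ K) (N : ℕ) :
    (((range (N + 1)).filter (fun a => a ∈ A)).card) ^ 2 ≤ K * (2 * N + 1) := by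
  obtain ⟨T, hT⟩ : ∃ T, T = (range (N + 1)).filter (fun a => a ∈ A) := ⟨_, rfl⟩
  rw [← hT, sq, ← Finset.card_product]
  have h1 : ∀ p ∈ T ×ˢ T, p.1 + p.2 ∈ range (2 * N + 1) := by
    intro p hp
    rw [Finset.mem_product, hT, Finset.mem_filter, Finset.mem_filter, mem_range, mem_range] at hp
    rw [mem_range]
    omega
  rw [Finset.card_eq_sum_card_fiberwise h1]
  calc ∑ n ∈ range (2 * N + 1), ((T ×ˢ T).filter (fun p => p.1 + p.2 = n)).card ≤
        ∑ _n ∈ range (2 * N + 1), K := by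
        refine Finset.sum_le_sum fun n _ => le_trans ?_ (hK n)
        rw [rep_U]
        refine Finset.card_le_card fun p hp => ?_
        rw [Finset.mem_filter, Finset.mem_product, hT, Finset.mem_filter, Finset.mem_filter] at hp
        rw [mem_U]
        exact ⟨hp.1.1.2, hp.1.2.2, hp.2⟩
    _ = K * (2 * N + 1) := by rw [Finset.sum_const, card_range, smul_eq_mul, mul_comm]

theorem trig_eq (Θ : Finset ℝ) (α : ℝ → ℂ) (n : ℕ) : X8.OH.PP Θ α n = trig Θ α n := by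
  unfold X8.OH.PP trig
  refine Finset.sum_congr rfl fun θ _ => ?_
  rw [X8.OH.en_eq]
  congr 2
  push_cast
  ring

theorem trig_half (Θ : Finset ℝ) (α : ℝ → ℂ) (n : ℕ) :
    trig Θ (fun θ => α θ / 2) n = trig Θ α n / 2 := by
  unfold trig
  rw [Finset.sum_div]
  exact Finset.sum_congr rfl fun θ _ => by ring

open Classical in
theorem sum_eq (A : Set ℕ) (W : Finset ℕ) (c : ℕ → ℂ) {n : ℕ} (hn : ∀ k ∈ W, k ≤ n)
    (h2 : ∀ k ∈ W, ∀ a ∈ A, 2 * a ≠ n - k) :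
    ∑ k ∈ W, c k * (rep A (n - k) : ℂ) =
      2 * X8.OH.Sc A 2 (fun k => if k ∈ W then c k else 0) n := by
  unfold X8.OH.Sc
  rw [Finset.Nat.sum_antidiagonal_eq_sum_range_succ
    (fun i j => (if i ∈ W then c i else 0) * ((X8.OH.rr A 2 j : ℝ) : ℂ))]
  have h1 : ∀ k ∈ range (n + 1), (if k ∈ W then c k else 0) * ((X8.OH.rr A 2 (n - k) : ℝ) : ℂ) =
      if k ∈ W then c k * ((X8.OH.rr A 2 (n - k) : ℝ) : ℂ) else 0 := by
    intro k _
    split_ifs
    · rfl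
    · exact zero_mul _
  rw [Finset.sum_congr rfl h1, ← Finset.sum_filter]
  have h3 : (range (n + 1)).filter (fun k => k ∈ W) = W := by
    ext k
    simp only [Finset.mem_filter, Finset.mem_range]
    constructor
    · exact fun h => h.2
    · exact fun h => ⟨by have := hn k h; omega, h⟩
  rw [h3, Finset.mul_sum]
  refine Finset.sum_congr rfl fun k hk => ?_
  rw [rep_two A (n - k) (h2 k hk)]
  unfold X8.OH.rr
  push_cast
  ring

/-- **Translates of the bounded representation function of a thin set satisfy no approximate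
linear relation.** -/
theorem quant (K L : ℕ) (B C : ℝ) :
    ∃ c : ℝ, 0 < c ∧ ∃ E : ℕ, ∀ A : Set ℕ, (∀ n, rep A n ≤ K) →
    ∀ g : ℕ → ℝ, Monotone g → (∀ N, 1 ≤ g N) →
    (∀ᶠ N : ℕ in atTop, √N / g N ≤ C * ((A ∩ Set.Icc 1 N).ncard : ℝ)) →
    ∀ᶠ N : ℕ in atTop, g N ^ (2 * E) ≤ c * N →
      ∀ W : Finset ℕ, W.card ≤ L → (∀ k ∈ W, (k : ℝ) ≤ c / g N ^ E * N) →
      ∀ a : ℕ → ℂ, (∀ k ∈ W, ‖a k‖ ≤ 1) → (∃ κ ∈ W, ‖a κ‖ = 1) →
      ∀ (Θ : Finset ℝ) (α : ℝ → ℂ), (∀ n, ‖trig Θ α n‖ ≤ B) →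
      (∑ θ ∈ Θ, ‖α θ‖) * (Real.log N ^ 2 * g N ^ E) ≤ √N →
      c / g N ^ E * N ≤ (Set.ncard {n : ℕ | n ≤ N ∧ (∀ k ∈ W, k ≤ n) ∧
        c / g N ^ E ≤ ‖∑ k ∈ W, a k * (rep A (n - k) : ℂ) - trig Θ α n‖} : ℝ) := by
  classical
  obtain ⟨C', hC'⟩ : ∃ C' : ℝ, C' = max C 1 := ⟨_, rfl⟩
  have hC'1 : 1 ≤ C' := hC' ▸ le_max_right _ _
  have hC'C : C ≤ C' := hC' ▸ le_max_left _ _
  obtain ⟨c₀, hc₀, E, hmain⟩ := X8.OH.lin_thin K L (max B 0) C' (le_max_right _ _) hC'1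
  have hK0 : (0 : ℝ) ≤ K := Nat.cast_nonneg K
  have hD0 : (0 : ℝ) < 12 * ((L : ℝ) ^ 2 * K) + 1 := by positivity
  obtain ⟨c, hc⟩ : ∃ c : ℝ, c = min (c₀ / 2) (c₀ ^ 2 / (12 * ((L : ℝ) ^ 2 * K) + 1)) := ⟨_, rfl⟩
  have hcp : 0 < c := by rw [hc]; exact lt_min (by positivity) (by positivity)
  have hc1 : c ≤ c₀ / 2 := hc ▸ min_le_left _ _
  have hc2 : 12 * ((L : ℝ) ^ 2 * K) * c ≤ c₀ ^ 2 := by
    have h1 : c ≤ c₀ ^ 2 / (12 * ((L : ℝ) ^ 2 * K) + 1) := hc ▸ min_le_right _ _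
    rw [le_div_iff₀ hD0] at h1
    linarith
  refine ⟨c, hcp, E, fun A hK g hg hg1 hA => ?_⟩
  have hK' : ∀ n, Pool.Agent.H303R3.Rn A (Pool.Agent.H303R3.ET.Mo (k := 0 + 2)) n ≤ K :=
    fun n => (Rn_le_rep A n).trans (hK n)
  have hgp : ∀ N, 0 < g N := fun N => lt_of_lt_of_le one_pos (hg1 N)
  have hne : A.Nonempty := by
    obtain ⟨n, hn, hn1⟩ := (hA.and (eventually_ge_atTop 1)).exists
    by_contra h
    rw [Set.not_nonempty_iff_eq_empty] at h
    rw [h, Set.empty_inter, Set.ncard_empty, Nat.cast_zero, mul_zero] at hn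
    have h1 : (0 : ℝ) < n := by exact_mod_cast hn1
    have : 0 < √(n : ℝ) / g n := div_pos (Real.sqrt_pos.2 h1) (hgp n)
    linarith
  have hA' : ∀ᶠ n : ℕ in atTop, √n / g n ≤ C' * ((A ∩ Set.Icc 1 n).ncard : ℝ) :=
    hA.mono fun n hn => hn.trans (mul_le_mul_of_nonneg_right hC'C (Nat.cast_nonneg _))
  filter_upwards [hmain A hne hK' g hg hg1 hA', eventually_ge_atTop 1] with N hN hN1
  intro hgN W hW hWc a ha1 hκ Θ α hP hα
  obtain ⟨κ, hκW, hκ1⟩ := hκ
  have hN1' : (1 : ℝ) ≤ N := by exact_mod_cast hN1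
  have hN0 : (0 : ℝ) ≤ N := Nat.cast_nonneg N
  obtain ⟨G, hG⟩ : ∃ G : ℝ, G = g N ^ E := ⟨_, rfl⟩
  have hG0 : 0 < G := by rw [hG]; exact pow_pos (hgp N) E
  have hG2 : g N ^ (2 * E) = G ^ 2 := by rw [hG, ← pow_mul]; congr 1; ring
  rw [hG2] at hgN hN
  rw [← hG] at hWc hα hN ⊢
  obtain ⟨δ, hδ⟩ : ∃ δ : ℝ, δ = c₀ / G := ⟨_, rfl⟩
  have hδ0 : 0 < δ := by rw [hδ]; positivity
  have hcδ : c / G ≤ δ / 2 := by
    rw [hδ]
    calc c / G ≤ (c₀ / 2) / G := div_le_div_of_nonneg_right hc1 hG0.le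
      _ = c₀ / G / 2 := by ring
  rw [← hδ] at hN
  have h1 := hN (hgN.trans (mul_le_mul_of_nonneg_right (by linarith) hN0)) W hW
    (fun k hk => (hWc k hk).trans
      (mul_le_mul_of_nonneg_right (by linarith) hN0)) (fun k => if k ∈ W then a k else 0)
    (fun k hk => if_neg hk)
    (fun k => by
      show ‖(if k ∈ W then a k else 0)‖ ≤ 1
      split_ifs with hk
      · exact ha1 k hk
      · simp)
    ⟨κ, hκW, by
      show ‖(if κ ∈ W then a κ else 0)‖ = 1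
      rw [if_pos hκW]
      exact hκ1⟩ Θ (fun θ => α θ / 2) (fun n => by
      rw [trig_eq, trig_half, norm_div, Complex.norm_ofNat]
      have h2 := hP n
      have h3 := norm_nonneg (trig Θ α n)
      have h4 := le_max_left B 0
      linarith) (by
      refine le_trans ?_ hα
      refine mul_le_mul_of_nonneg_right (Finset.sum_le_sum fun θ _ => ?_) (by positivity)
      rw [norm_div, Complex.norm_ofNat]
      linarith [norm_nonneg (α θ)])
  -- the exceptional set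
  obtain ⟨T, hT⟩ : ∃ T : Finset ℕ, T = (range (N + 1)).filter (fun a => a ∈ A) := ⟨_, rfl⟩
  obtain ⟨X, hX⟩ : ∃ X : Finset ℕ, X = (W ×ˢ T).image (fun p => 2 * p.2 + p.1) := ⟨_, rfl⟩
  have hN2 : (L : ℝ) ^ 2 * (K * (2 * N + 1)) ≤ (δ / 2 * N) ^ 2 := by
    have e1 : (δ / 2 * N) ^ 2 = c₀ ^ 2 * N * N / (4 * G ^ 2) := by
      rw [hδ]
      field_simp
      ring
    rw [e1, le_div_iff₀ (by positivity)]
    have e2 : 0 ≤ (L : ℝ) ^ 2 * K := by positivity
    calc (L : ℝ) ^ 2 * (K * (2 * N + 1)) * (4 * G ^ 2) =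
          (((L : ℝ) ^ 2 * K) * (4 * G ^ 2)) * (2 * N + 1) := by ring
      _ ≤ (((L : ℝ) ^ 2 * K) * (4 * G ^ 2)) * (3 * N) :=
          mul_le_mul_of_nonneg_left (by linarith) (by positivity)
      _ = (12 * ((L : ℝ) ^ 2 * K) * N) * G ^ 2 := by ring
      _ ≤ (12 * ((L : ℝ) ^ 2 * K) * N) * (c * N) :=
          mul_le_mul_of_nonneg_left hgN (by positivity)
      _ = (12 * ((L : ℝ) ^ 2 * K) * c) * (N * N) := by ring
      _ ≤ c₀ ^ 2 * (N * N) := mul_le_mul_of_nonneg_right hc2 (by positivity)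
      _ = _ := by ring
  have hXc : (X.card : ℝ) ≤ δ / 2 * N := by
    have e1 : X.card ≤ L * T.card := by
      rw [hX]
      refine Finset.card_image_le.trans ?_
      rw [Finset.card_product]
      exact Nat.mul_le_mul_right _ hW
    have e2 := thin hK N
    rw [← hT] at e2
    have e3 : ((L : ℝ) * T.card) ^ 2 ≤ (δ / 2 * N) ^ 2 := by
      refine le_trans ?_ hN2
      rw [mul_pow]
      exact mul_le_mul_of_nonneg_left (by exact_mod_cast e2) (by positivity)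
    have e4 := le_of_pow_le_pow_left₀ (n := 2) (by norm_num) (by positivity) e3
    exact le_trans (by exact_mod_cast e1) e4
  obtain ⟨Y, hY⟩ : ∃ Y : Finset ℕ, Y = (range (N + 1)).filter (fun n => (∀ k ∈ W, k ≤ n) ∧
    δ ≤ ‖X8.OH.Sc A (0 + 2) (fun k => if k ∈ W then a k else 0) n -
      X8.OH.PP Θ (fun θ => α θ / 2) n‖) := ⟨_, rfl⟩
  rw [← hY] at h1
  have hsub : ((Y \ X : Finset ℕ) : Set ℕ) ⊆ {n : ℕ | n ≤ N ∧ (∀ k ∈ W, k ≤ n) ∧
        c / G ≤ ‖∑ k ∈ W, a k * (rep A (n - k) : ℂ) - trig Θ α n‖} := by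
    intro n hn
    rw [Finset.mem_coe, Finset.mem_sdiff, hY, Finset.mem_filter, mem_range, Nat.lt_succ_iff] at hn
    obtain ⟨⟨a1, a2, a3⟩, a4⟩ := hn
    refine ⟨a1, a2, ?_⟩
    have a5 : ∀ k ∈ W, ∀ a ∈ A, 2 * a ≠ n - k := by
      intro k hk a ha h
      apply a4
      rw [hX, Finset.mem_image]
      refine ⟨(k, a), ?_, ?_⟩
      · rw [Finset.mem_product, hT, Finset.mem_filter, mem_range]
        exact ⟨hk, by show a < N + 1; omega, ha⟩
      · show 2 * a + k = n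
        have := a2 k hk
        omega
    rw [sum_eq A W a a2 a5]
    rw [trig_eq, trig_half] at a3
    have a6 : 2 * X8.OH.Sc A 2 (fun k => if k ∈ W then a k else 0) n - trig Θ α n =
        2 * (X8.OH.Sc A (0 + 2) (fun k => if k ∈ W then a k else 0) n - trig Θ α n / 2) := by
      ring
    rw [a6, norm_mul, Complex.norm_ofNat]
    linarith
  have hfin : Set.Finite {n : ℕ | n ≤ N ∧ (∀ k ∈ W, k ≤ n) ∧
        c / G ≤ ‖∑ k ∈ W, a k * (rep A (n - k) : ℂ) - trig Θ α n‖} :=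
    (Set.finite_Iic N).subset fun n hn => hn.1
  have h5 := Set.ncard_le_ncard hsub hfin
  rw [Set.ncard_coe_finset] at h5
  have h6 : Y.card ≤ (Y \ X).card + X.card := by
    have := Finset.card_le_card (show Y ⊆ (Y \ X) ∪ X by
      intro n hn
      rw [Finset.mem_union, Finset.mem_sdiff]
      by_cases h : n ∈ X
      · exact Or.inr h
      · exact Or.inl ⟨hn, h⟩)
    exact this.trans (Finset.card_union_le _ _)
  have h7 : (Y.card : ℝ) ≤ ((Y \ X).card : ℝ) + X.card := by exact_mod_cast h6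
  have h8 : ((Y \ X).card : ℝ) ≤ (Set.ncard {n : ℕ | n ≤ N ∧ (∀ k ∈ W, k ≤ n) ∧
        c / G ≤ ‖∑ k ∈ W, a k * (rep A (n - k) : ℂ) - trig Θ α n‖} : ℝ) := by
    exact_mod_cast h5
  have h9 : c / G * N ≤ δ / 2 * N := mul_le_mul_of_nonneg_right hcδ hN0
  linarith

/-- An approximate linear relation between translates of `r_A` on `[0, N]`: there are a set `W` of
at most `L` shifts `k ≤ ε N`, complex coefficients `a_k` with `max |a_k| = 1` and a trigonometric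
polynomial `P` with `|P| ≤ B` and `∑ |α_θ| (log N)² ≤ ε √N` such that
`|∑_k a_k r_A(n - k) - P(n)| < ε` for all but fewer than `ε N` of the `n` with
`max W ≤ n ≤ N`. -/
def Relation (A : Set ℕ) (L : ℕ) (B ε : ℝ) (N : ℕ) : Prop :=
  ∃ W : Finset ℕ, W.card ≤ L ∧ (∀ k ∈ W, (k : ℝ) ≤ ε * N) ∧
  ∃ a : ℕ → ℂ, (∀ k ∈ W, ‖a k‖ ≤ 1) ∧ (∃ κ ∈ W, ‖a κ‖ = 1) ∧
  ∃ (Θ : Finset ℝ) (α : ℝ → ℂ), (∀ n, ‖trig Θ α n‖ ≤ B) ∧
  (∑ θ ∈ Θ, ‖α θ‖) * Real.log N ^ 2 ≤ ε * √N ∧
  (Set.ncard {n : ℕ | n ≤ N ∧ (∀ k ∈ W, k ≤ n) ∧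
    ε ≤ ‖∑ k ∈ W, a k * (rep A (n - k) : ℂ) - trig Θ α n‖} : ℝ) < ε * N

open Classical in
/-- a slowly growing monotone minorant -/
theorem slow (y : ℕ → ℝ) (hy : Tendsto y atTop atTop) : ∃ g : ℕ → ℝ, Monotone g ∧
    Tendsto g atTop atTop ∧ (∀ N, 1 ≤ g N) ∧ ∀ᶠ N : ℕ in atTop, g N ≤ 1 + y N := by
  obtain ⟨S, hS⟩ : ∃ S : ℕ → Finset ℕ, S = fun N =>
    (range N).filter (fun j : ℕ => ∀ n, N ≤ n → (j : ℝ) + 1 ≤ y n) := ⟨_, rfl⟩
  refine ⟨fun N => 1 + ((S N).card : ℝ), ?_, ?_, fun N => ?_, ?_⟩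
  · intro N M hNM
    have h1 : S N ⊆ S M := by
      intro j hj
      rw [hS, Finset.mem_filter, mem_range] at hj ⊢
      exact ⟨by omega, fun n hn => hj.2 n (hNM.trans hn)⟩
    have h2 : ((S N).card : ℝ) ≤ (S M).card := by exact_mod_cast Finset.card_le_card h1
    show 1 + ((S N).card : ℝ) ≤ 1 + (S M).card
    linarith
  · rw [tendsto_atTop]
    intro b
    obtain ⟨m, hm⟩ := exists_nat_ge b
    obtain ⟨N1, hN1⟩ := eventually_atTop.1 (hy.eventually_ge_atTop (m : ℝ))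
    filter_upwards [eventually_ge_atTop (max N1 m)] with N hN
    have h1 : range m ⊆ S N := by
      intro j hj
      rw [mem_range] at hj
      rw [hS, Finset.mem_filter, mem_range]
      refine ⟨lt_of_lt_of_le hj ((le_max_right _ _).trans hN), fun n hn => ?_⟩
      have h2 := hN1 n (((le_max_left _ _).trans hN).trans hn)
      have h3 : (j : ℝ) + 1 ≤ m := by exact_mod_cast hj
      linarith
    have h2 := Finset.card_le_card h1
    rw [card_range] at h2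
    have h3 : (m : ℝ) ≤ (S N).card := by exact_mod_cast h2
    linarith
  · have : (0 : ℝ) ≤ (S N).card := Nat.cast_nonneg _
    show 1 ≤ 1 + ((S N).card : ℝ)
    linarith
  · filter_upwards [hy.eventually_ge_atTop 0] with N hN
    have h1 : S N ⊆ range ⌊y N⌋₊ := by
      intro j hj
      rw [hS, Finset.mem_filter] at hj
      rw [mem_range]
      have h2 := hj.2 N le_rfl
      have h3 : j + 1 ≤ ⌊y N⌋₊ := Nat.le_floor (by push_cast; exact h2)
      omega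
    have h2 := Finset.card_le_card h1
    rw [card_range] at h2
    have h3 : ((S N).card : ℝ) ≤ (⌊y N⌋₊ : ℝ) := by exact_mod_cast h2
    have h4 := Nat.floor_le hN
    linarith

/-- `(1 + y)^E e^{-y} → 0` -/
theorem exp_lim (E : ℕ) : Tendsto (fun y : ℝ => (1 + y) ^ E * Real.exp (-y)) atTop (𝓝 0) := by
  have h1 := Real.tendsto_pow_mul_exp_neg_atTop_nhds_zero E
  have h2 : Tendsto (fun y : ℝ => 1 + y) atTop atTop := tendsto_atTop_add_const_left _ 1 tendsto_id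
  have h3 := (h1.comp h2).mul_const (Real.exp 1)
  rw [zero_mul] at h3
  refine h3.congr fun y => ?_
  simp only [Function.comp]
  rw [mul_assoc, ← Real.exp_add]
  congr 2
  ring

/-- **MP_491344_nt, Q1: translates of the bounded representation function of a thin set satisfy no
approximate linear relation.**  The first part is quantitative.  The second part says that for
every `ε → 0` there is a `g → ∞` which forces unbounded representations in the class of all sets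
`A` which satisfy infinitely many approximate linear relations of quality `ε(N)`. -/
theorem result :
    (∀ (K L : ℕ) (B C : ℝ), ∃ c : ℝ, 0 < c ∧ ∃ E : ℕ, ∀ A : Set ℕ, (∀ n, rep A n ≤ K) →
      ∀ g : ℕ → ℝ, Monotone g → (∀ N, 1 ≤ g N) →
      (∀ᶠ N : ℕ in atTop, √N / g N ≤ C * ((A ∩ Set.Icc 1 N).ncard : ℝ)) →
      ∀ᶠ N : ℕ in atTop, g N ^ (2 * E) ≤ c * N →
        ∀ W : Finset ℕ, W.card ≤ L → (∀ k ∈ W, (k : ℝ) ≤ c / g N ^ E * N) →
        ∀ a : ℕ → ℂ, (∀ k ∈ W, ‖a k‖ ≤ 1) → (∃ κ ∈ W, ‖a κ‖ = 1) →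
        ∀ (Θ : Finset ℝ) (α : ℝ → ℂ), (∀ n, ‖trig Θ α n‖ ≤ B) →
        (∑ θ ∈ Θ, ‖α θ‖) * (Real.log N ^ 2 * g N ^ E) ≤ √N →
        c / g N ^ E * N ≤ (Set.ncard {n : ℕ | n ≤ N ∧ (∀ k ∈ W, k ≤ n) ∧
          c / g N ^ E ≤ ‖∑ k ∈ W, a k * (rep A (n - k) : ℂ) - trig Θ α n‖} : ℝ)) ∧
    (∀ ε : ℕ → ℝ, (∀ N, 0 < ε N) → Tendsto ε atTop (𝓝 0) →
      ∃ g : ℕ → ℝ, Monotone g ∧ Tendsto g atTop atTop ∧ ∀ A : Set ℕ,
        (∃ C : ℝ, ∀ᶠ N : ℕ in atTop, √N / g N ≤ C * ((A ∩ Set.Icc 1 N).ncard : ℝ)) →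
        (∃ (L : ℕ) (B : ℝ), ∃ᶠ N : ℕ in atTop, Relation A L B (ε N) N) →
        ∀ K : ℕ, ∃ n, K < rep A n) := by
  refine ⟨quant, fun ε hε0 hε => ?_⟩
  -- the growth function
  have hcast : Tendsto (fun N : ℕ => (N : ℝ)) atTop atTop := tendsto_natCast_atTop_atTop
  have hy1 : Tendsto (fun N => -Real.log (ε N)) atTop atTop := by
    have h1 : Tendsto ε atTop (𝓝[>] 0) :=
      tendsto_nhdsWithin_iff.2 ⟨hε, Eventually.of_forall fun N => hε0 N⟩
    exact tendsto_neg_atBot_atTop.comp (Real.tendsto_log_nhdsGT_zero.comp h1)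
  have hy2 : Tendsto (fun N : ℕ => Real.log N) atTop atTop :=
    Real.tendsto_log_atTop.comp tendsto_natCast_atTop_atTop
  obtain ⟨y, hy⟩ : ∃ y : ℕ → ℝ, y = fun N => min (-Real.log (ε N)) (Real.log N) := ⟨_, rfl⟩
  have hyt : Tendsto y atTop atTop := by
    rw [hy, tendsto_atTop]
    intro b
    filter_upwards [hy1.eventually_ge_atTop b, hy2.eventually_ge_atTop b] with N h1 h2
    exact le_min h1 h2
  obtain ⟨g, hg, hgt, hg1, hgy⟩ := slow y hyt
  refine ⟨g, hg, hgt, fun A ⟨C, hC⟩ ⟨L, B, hrel⟩ K => ?_⟩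
  by_contra hcon
  push Not at hcon
  obtain ⟨c, hc, E, hmain⟩ := quant K L B C
  have hev := hmain A hcon g hg hg1 hC
  obtain ⟨c', hc'⟩ : ∃ c' : ℝ, c' = min c 1 := ⟨_, rfl⟩
  have hc'0 : 0 < c' := by rw [hc']; exact lt_min hc one_pos
  have hc'1 : c' ≤ 1 := hc' ▸ min_le_right _ _
  have hc'c : c' ≤ c := hc' ▸ min_le_left _ _
  have hlim1 := ((exp_lim E).comp hyt).eventually_lt_const hc'0
  have hlim2 := ((exp_lim (2 * E)).comp hyt).eventually_lt_const hc'0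
  obtain ⟨N, hN, h1, h2, h3, h4, h5⟩ := (hrel.and_eventually (hev.and (hlim1.and (hlim2.and
    (hgy.and (eventually_ge_atTop 1)))))).exists
  simp only [Function.comp] at h2 h3
  obtain ⟨W, hW, hWε, a, ha1, hκ, Θ, α, hP, hα, hcard⟩ := hN
  have hN1 : (1 : ℝ) ≤ N := by exact_mod_cast h5
  have hN0 : (0 : ℝ) < N := by linarith
  have hg0 : 0 ≤ g N := by linarith [hg1 N]
  have hgp : 0 < g N ^ E := pow_pos (by linarith [hg1 N]) E
  have hey1 : ε N ≤ Real.exp (-y N) := by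
    have h6 : y N ≤ -Real.log (ε N) := by rw [hy]; exact min_le_left _ _
    calc ε N = Real.exp (Real.log (ε N)) := (Real.exp_log (hε0 N)).symm
      _ ≤ _ := Real.exp_le_exp.2 (by linarith)
  have hey2 : 1 ≤ Real.exp (-y N) * N := by
    have h6 : y N ≤ Real.log N := by rw [hy]; exact min_le_right _ _
    have h7 : Real.exp (-Real.log N) ≤ Real.exp (-y N) := Real.exp_le_exp.2 (by linarith)
    rw [Real.exp_neg, Real.exp_log hN0] at h7
    calc (1 : ℝ) = (N : ℝ)⁻¹ * N := by field_simp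
      _ ≤ _ := mul_le_mul_of_nonneg_right h7 hN0.le
  have hgE : g N ^ E ≤ (1 + y N) ^ E := pow_le_pow_left₀ hg0 h4 E
  have hg2E : g N ^ (2 * E) ≤ (1 + y N) ^ (2 * E) := pow_le_pow_left₀ hg0 h4 _
  have k1 : ε N * g N ^ E ≤ c' := by
    calc ε N * g N ^ E ≤ Real.exp (-y N) * (1 + y N) ^ E :=
          mul_le_mul hey1 hgE hgp.le (Real.exp_nonneg _)
      _ = (1 + y N) ^ E * Real.exp (-y N) := mul_comm _ _
      _ ≤ c' := h2.le
  have k2 : g N ^ (2 * E) ≤ c * N := by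
    have h6 : 0 ≤ g N ^ (2 * E) := pow_nonneg hg0 _
    calc g N ^ (2 * E) = g N ^ (2 * E) * 1 := (mul_one _).symm
      _ ≤ (1 + y N) ^ (2 * E) * (Real.exp (-y N) * N) :=
          mul_le_mul hg2E hey2 zero_le_one (h6.trans hg2E)
      _ = ((1 + y N) ^ (2 * E) * Real.exp (-y N)) * N := by ring
      _ ≤ c * N := mul_le_mul_of_nonneg_right (h3.le.trans hc'c) hN0.le
  have k3 : ε N ≤ c / g N ^ E := by
    rw [le_div_iff₀ hgp]
    exact k1.trans hc'c
  have k4 := h1 k2 W hW (fun k hk => (hWε k hk).trans (mul_le_mul_of_nonneg_right k3 hN0.le))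
    a ha1 hκ Θ α hP (by
      calc (∑ θ ∈ Θ, ‖α θ‖) * (Real.log N ^ 2 * g N ^ E) =
            ((∑ θ ∈ Θ, ‖α θ‖) * Real.log N ^ 2) * g N ^ E := by ring
        _ ≤ (ε N * √N) * g N ^ E := mul_le_mul_of_nonneg_right hα hgp.le
        _ = (ε N * g N ^ E) * √N := by ring
        _ ≤ 1 * √N := mul_le_mul_of_nonneg_right (k1.trans hc'1) (Real.sqrt_nonneg _)
        _ = √N := one_mul _)
  have k5 : Set.ncard {n : ℕ | n ≤ N ∧ (∀ k ∈ W, k ≤ n) ∧
      c / g N ^ E ≤ ‖∑ k ∈ W, a k * (rep A (n - k) : ℂ) - trig Θ α n‖} ≤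
      Set.ncard {n : ℕ | n ≤ N ∧ (∀ k ∈ W, k ≤ n) ∧
      ε N ≤ ‖∑ k ∈ W, a k * (rep A (n - k) : ℂ) - trig Θ α n‖} := by
    apply Set.ncard_le_ncard
    · intro n hn
      exact ⟨hn.1, hn.2.1, k3.trans hn.2.2⟩
    · exact (Set.finite_Iic N).subset fun n hn => hn.1
  have k6 : ((Set.ncard {n : ℕ | n ≤ N ∧ (∀ k ∈ W, k ≤ n) ∧
      c / g N ^ E ≤ ‖∑ k ∈ W, a k * (rep A (n - k) : ℂ) - trig Θ α n‖} : ℕ) : ℝ) ≤
      (Set.ncard {n : ℕ | n ≤ N ∧ (∀ k ∈ W, k ≤ n) ∧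
      ε N ≤ ‖∑ k ∈ W, a k * (rep A (n - k) : ℂ) - trig Θ α n‖} : ℕ) := by exact_mod_cast k5
  have k7 : ε N * N ≤ c / g N ^ E * N := mul_le_mul_of_nonneg_right k3 hN0.le
  linarith

end Pool.Agent.Results.MP_491344_nt.ThinLinearRelations
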