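import Pool.Agent.X8.ET.Thin

/-!
# MP_491344_nt: thin sets with bounded representation function and arbitrary windows

Let `g ≥ 1` be nondecreasing and let `A` satisfy the density condition of the question,
`√N / g(N) ≤ C |A ∩ [1,N]|` for large `N`, and have a bounded representation function `r_A`. Then for
all large `N` the sums of `r_A` over EVERY window `W` (with nonnegative weights) of at most about
`√N / (g(N) (log N)²)` terms have large fluctuations: whatever `t` is, some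
`S(n) = ∑ w_k r_A(n - k)`, `n ≤ N`, deviates from `t` by at least `√(m ∑ w_k²) / g(N)`, where
`m < 1 / (8 C²)`. In other words, every such `g` forces unbounded representations inside the class of
the sets which are more regular than that along one window for infinitely many `N`.

Method: for `f(z) = ∑_{a ∈ A} z^a`, `h(z) = ∑ w_k z^k` and `|z| = ρ = 1 - 2 log N / N` compare the
mean value of `|h f|²`, which is at least `∑ w_k² ρ^(2 k) ∑_{a ∈ A} ρ^(2 a)`, with the mean value of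
`|h| |h f² - t / (1 - z)|` and use Cauchy's inequality.
-/

set_option autoImplicit false

open Finset Filter Topology

namespace Pool.Agent.Results.MP_491344_nt.WindowThresholds

/-- The number `1_A * 1_A(n)` of ordered pairs `(a, b) ∈ A × A` with `a + b = n`. -/
noncomputable def rep (A : Set ℕ) (n : ℕ) : ℕ :=
  Set.ncard {p : ℕ × ℕ | p.1 ∈ A ∧ p.2 ∈ A ∧ p.1 + p.2 = n}

/-- The window sum `S(n) = ∑_{k ∈ W} w_k r_A(n - k)`; it is used only for `n ≥ max W`. -/
noncomputable def window (A : Set ℕ) (W : Finset ℕ) (w : ℕ → ℝ) (n : ℕ) : ℝ :=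
  ∑ k ∈ W, w k * rep A (n - k)

open Classical in
theorem window_eq (A : Set ℕ) (W : Finset ℕ) (w : ℕ → ℝ) {n : ℕ} (hn : ∀ k ∈ W, k ≤ n) :
    X8.ET.Sw A (fun k => if k ∈ W then w k else 0) n = window A W w n := by
  unfold X8.ET.Sw window
  rw [Finset.Nat.sum_antidiagonal_eq_sum_range_succ
    (fun i j => (if i ∈ W then w i else 0) * (TH314.ET.rep A j : ℝ))]
  have h1 : ∀ k ∈ range (n + 1), (if k ∈ W then w k else 0) * (TH314.ET.rep A (n - k) : ℝ) =
      if k ∈ W then w k * (rep A (n - k) : ℝ) else 0 := by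
    intro k _
    split_ifs
    · rfl
    · exact zero_mul _
  rw [Finset.sum_congr rfl h1, ← Finset.sum_filter]
  refine Finset.sum_congr ?_ fun _ _ => rfl
  ext k
  simp only [Finset.mem_filter, Finset.mem_range]
  constructor
  · exact fun h => h.2
  · exact fun h => ⟨by have := hn k h; omega, h⟩

open Classical in
theorem sum_ite_eq' (W : Finset ℕ) (g : ℝ → ℝ) (w : ℕ → ℝ) :
    ∑ k ∈ W, g (if k ∈ W then w k else 0) = ∑ k ∈ W, g (w k) :=
  Finset.sum_congr rfl fun k hk => by rw [if_pos hk]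

/-- **Window discrepancy at thin densities.** -/
theorem result (g : ℕ → ℝ) (hg : Monotone g) (hg1 : ∀ N, 1 ≤ g N) (A : Set ℕ) (C : ℝ) (hC : 0 < C)
    (hA : ∀ᶠ N : ℕ in atTop, √N / g N ≤ C * ((A ∩ Set.Icc 1 N).ncard : ℝ))
    (K : ℕ) (hK : ∀ n, rep A n ≤ K) (m : ℝ) (hm0 : 0 ≤ m) (hm : m < 1 / (8 * C ^ 2)) :
    ∀ᶠ N : ℕ in atTop, ∀ (W : Finset ℕ) (w : ℕ → ℝ), (∀ k ∈ W, 0 ≤ w k) → 0 < ∑ k ∈ W, w k →
      (∑ k ∈ W, w k) ^ 2 * Real.log N ^ 2 * g N ≤ √N * ∑ k ∈ W, w k ^ 2 →
      (∀ k ∈ W, k * (∑ k ∈ W, w k) ^ 2 * Real.log N ^ 2 * g N ^ 2 ≤ N * ∑ k ∈ W, w k ^ 2) →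
      ∀ t : ℝ, ∃ n ≤ N, (∀ k ∈ W, k ≤ n) ∧
        m * ∑ k ∈ W, w k ^ 2 ≤ g N ^ 2 * (window A W w n - t) ^ 2 := by
  classical
  obtain ⟨m', hm1, hm2⟩ := exists_between hm
  have hR := X8.ET.thin_ev A g hg (fun N => lt_of_lt_of_le one_pos (hg1 N)) C hC hA hm2
  filter_upwards [X8.ET.growing_thin A K hK g hg1 m m' hm0 hm1 hR] with N hN
  intro W w hw hpos hc1 hc2 t
  have e1 := sum_ite_eq' W (fun x => x ^ 2) w
  have e2 := sum_ite_eq' W (fun x => x) w
  have h1 := hN W (fun k => if k ∈ W then w k else 0)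
    (fun k => by
      show 0 ≤ (if k ∈ W then w k else 0)
      split_ifs with hk
      · exact hw k hk
      · exact le_rfl)
    (fun k hk => if_neg hk)
  rw [e1, e2] at h1
  obtain ⟨n, hn1, hn2, hn3⟩ := h1 hpos hc1 hc2 t
  refine ⟨n, hn1, hn2, ?_⟩
  rw [window_eq A W w hn2] at hn3
  exact hn3

end Pool.Agent.Results.MP_491344_nt.WindowThresholds
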